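import Pool.Agent.LibHZ7.Core

/-!
# Parameters (helper5)
-/

namespace HZ7

open Finset HZ89 Polynomial

theorem log3_ge : (1.09 : ℝ) ≤ Real.log 3 := by
  have h1 := Real.exp_one_lt_d9
  have h2 : Real.log 3 = 1 + Real.log (3 / Real.exp 1) := by
    rw [Real.log_div (by norm_num) (Real.exp_pos 1).ne', Real.log_exp]
    ring
  have h3 := Real.one_sub_inv_le_log_of_pos (x := 3 / Real.exp 1) (by positivity)
  rw [inv_div] at h3
  rw [h2]
  linarith

theorem phi_neg {s l : ℕ} {L : ℝ} (hl : 10 ≤ l) (hL0 : 0 ≤ L) (hL : L ≤ l) :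
    (((70 * (s + 1) * l : ℕ) : ℝ)) + ((70 * (s + 1) * l : ℕ) : ℝ) ^ 2 * L / 2 +
      s * ((6 * (s + 1) * l ^ 2 : ℕ) : ℝ) * (20 + 200 * L) +
      ((6 * (s + 1) * l ^ 2 : ℕ) : ℝ) * (10 + 50 * L + 90 * (2 * L + 1 + 8 * Real.log 2) -
        10 * (((70 * (s + 1) * l : ℕ) : ℝ) - 20) * Real.log 3) < 0 := by
  have h2 := Real.log_two_lt_d9
  have h3 := log3_ge
  have hlr : (10 : ℝ) ≤ l := by exact_mod_cast hl
  have hs : (0 : ℝ) ≤ s := Nat.cast_nonneg s
  push_cast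
  set S : ℝ := (s : ℝ) + 1 with hS
  have hS1 : 1 ≤ S := by linarith
  have hsS : (s : ℝ) = S - 1 := by linarith
  have hD : (0 : ℝ) ≤ 70 * S * l - 20 := by nlinarith
  have e1 : 10 * (70 * S * l - 20) * Real.log 3 ≥ 10 * (70 * S * l - 20) * 1.09 := by
    nlinarith
  have hM : 0 ≤ 6 * S * (l : ℝ) ^ 2 := by positivity
  have e2 : 6 * S * (l : ℝ) ^ 2 * (10 + 50 * L + 90 * (2 * L + 1 + 8 * Real.log 2) -
      10 * (70 * S * l - 20) * Real.log 3) ≤
      6 * S * (l : ℝ) ^ 2 * (10 + 50 * l + 90 * (2 * l + 1 + 8 * 0.6931471808) -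
        10 * (70 * S * l - 20) * 1.09) :=
    mul_le_mul_of_nonneg_left (by linarith) hM
  have e3 : (70 * S * (l : ℝ)) ^ 2 * L / 2 ≤ (70 * S * (l : ℝ)) ^ 2 * l / 2 := by
    have : 0 ≤ (70 * S * (l : ℝ)) ^ 2 := by positivity
    nlinarith
  have e4 : (S - 1) * (6 * S * (l : ℝ) ^ 2) * (20 + 200 * L) ≤
      (S - 1) * (6 * S * (l : ℝ) ^ 2) * (20 + 200 * l) := by
    have : 0 ≤ (S - 1) * (6 * S * (l : ℝ) ^ 2) := mul_nonneg (by linarith) hM
    nlinarith
  rw [hsS]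
  -- the polynomial inequality
  have hl3 : 0 < (l : ℝ) ^ 3 := by positivity
  have key : 70 * S * (l : ℝ) + (70 * S * (l : ℝ)) ^ 2 * l / 2 +
      (S - 1) * (6 * S * (l : ℝ) ^ 2) * (20 + 200 * l) +
      6 * S * (l : ℝ) ^ 2 * (10 + 50 * l + 90 * (2 * l + 1 + 8 * 0.6931471808) -
        10 * (70 * S * l - 20) * 1.09) < 0 := by
    -- divide by `S l²`
    have e5 : 70 * S * (l : ℝ) + (70 * S * (l : ℝ)) ^ 2 * l / 2 +
      (S - 1) * (6 * S * (l : ℝ) ^ 2) * (20 + 200 * l) +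
      6 * S * (l : ℝ) ^ 2 * (10 + 50 * l + 90 * (2 * l + 1 + 8 * 0.6931471808) -
        10 * (70 * S * l - 20) * 1.09) =
      S * l * (70 + 2450 * S * l ^ 2 + 6 * (S - 1) * l * (20 + 200 * l) +
        6 * l * (10 + 50 * l + 90 * (2 * l + 1 + 8 * 0.6931471808) -
          10 * (70 * S * l - 20) * 1.09)) := by ring
    rw [e5]
    refine mul_neg_of_pos_of_neg (by positivity) ?_
    have e6 : 70 + 2450 * S * (l : ℝ) ^ 2 + 6 * (S - 1) * l * (20 + 200 * l) +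
        6 * l * (10 + 50 * l + 90 * (2 * l + 1 + 8 * 0.6931471808) -
          10 * (70 * S * l - 20) * 1.09) =
        70 + (2450 * S + 1200 * (S - 1) + 1380 - 4578 * S) * (l : ℝ) ^ 2 +
          (120 * (S - 1) + 6 * (10 + 90 + 720 * 0.6931471808 + 218)) * l := by ring
    rw [e6]
    have e7 : 2450 * S + 1200 * (S - 1) + 1380 - 4578 * S = 180 - 928 * S := by ring
    rw [e7]
    nlinarith
  linarith

theorem exp_small {L : ℝ} (h1 : 0.69 ≤ L) (h2 : 160 * L ^ 2 ≤ Real.exp L) : 9 ≤ L := by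
  have he := Real.exp_one_lt_d9
  have hpos := Real.exp_pos 1
  have hp : ∀ n : ℕ, Real.exp n ≤ 2.7182818286 ^ n := by
    intro n
    rw [← Real.exp_one_pow]
    exact pow_le_pow_left₀ hpos.le he.le n
  by_contra h9
  push Not at h9
  have step : ∀ (a : ℝ) (n : ℕ), a ≤ L → 0 ≤ a → (2.7182818286 : ℝ) ^ n < 160 * a ^ 2 →
      (n : ℝ) < L := by
    intro a n ha ha0 hlt
    by_contra hcon
    push Not at hcon
    have h3 : Real.exp L ≤ Real.exp n := Real.exp_le_exp.2 hcon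
    have h4 := hp n
    have h5 : a ^ 2 ≤ L ^ 2 := pow_le_pow_left₀ ha0 ha 2
    linarith
  have s1 := step 0.69 4 h1 (by norm_num) (by norm_num)
  have s2 := step 4 7 (by exact_mod_cast s1.le) (by norm_num) (by norm_num)
  have s3 := step 7 8 (by exact_mod_cast s2.le) (by norm_num) (by norm_num)
  have s4 := step 8 9 (by exact_mod_cast s3.le) (by norm_num) (by norm_num)
  push_cast at s4
  linarith

/-- the period of `hur` -/
theorem hur_mod (q y : ℕ) (hq : 1 ≤ q) : hur (((y % q : ℕ) : ℝ) / q) = hur ((y : ℝ) / q) := by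
  have hq0 : (0 : ℝ) < q := by exact_mod_cast hq
  have h1 := SS_per (q := q) ((y % q : ℕ) : ℝ) (y / q)
  have h2 : ((y % q : ℕ) : ℝ) + q * ((y / q : ℕ) : ℝ) = y := by
    have := Nat.mod_add_div y q
    exact_mod_cast this
  rw [h2, SS_hur hq, SS_hur hq] at h1
  have h3 : (1 / (q : ℝ) ^ 3) ≠ 0 := by positivity
  exact (mul_left_cancel₀ h3 h1).symm

/-- **sumsets** -/
theorem sumset {q : ℕ} (hq : 2 ≤ q) (V : Submodule ℚ ℝ) (hV : Module.Finite ℚ V)
    (A B : Finset ℕ) (hA : ∀ a ∈ A, a < q) (hB : ∀ b ∈ B, b < q)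
    (hAc : 8 * ((Module.finrank ℚ V : ℝ) + 1) * Real.log q ^ 2 ≤ A.card)
    (hBc : 160 * ((Module.finrank ℚ V : ℝ) + 1) ^ 2 * Real.log q ^ 2 ≤ B.card) :
    ∃ a ∈ A, ∃ b ∈ B,
      hur (((a + b : ℕ) : ℝ) / q) ∉ V ⊔ Submodule.span ℚ {(1 : ℝ)} := by
  by_contra hcon
  push Not at hcon
  obtain ⟨s, hs⟩ : ∃ s, Module.finrank ℚ V = s := ⟨_, rfl⟩
  rw [hs] at hAc hBc
  have hqr : (2 : ℝ) ≤ q := by exact_mod_cast hq
  have hs0 : (0 : ℝ) ≤ s := Nat.cast_nonneg s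
  set L := Real.log q with hLdef
  have hL1 : 0.69 ≤ L := by
    have h1 := Real.log_two_gt_d9
    have h2 : Real.log 2 ≤ Real.log q := Real.log_le_log (by norm_num) hqr
    linarith
  have hBq : B.card ≤ q := by
    have h1 : B ⊆ range q := fun b hb => mem_range.2 (hB b hb)
    simpa using card_le_card h1
  have hL9 : 9 ≤ L := by
    apply exp_small hL1
    rw [hLdef, Real.exp_log (by linarith), ← hLdef]
    have h1 : (B.card : ℝ) ≤ q := by exact_mod_cast hBq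
    have h2 : (1 : ℝ) ≤ ((s : ℝ) + 1) ^ 2 := by nlinarith
    have h3 : 160 * L ^ 2 ≤ 160 * ((s : ℝ) + 1) ^ 2 * L ^ 2 := by
      have := mul_le_mul_of_nonneg_right h2 (by positivity : (0 : ℝ) ≤ 160 * L ^ 2)
      linarith
    linarith
  set l : ℕ := ⌊L⌋₊ + 1 with hl
  have hfl : (⌊L⌋₊ : ℝ) ≤ L := Nat.floor_le (by linarith)
  have hl10 : 10 ≤ l := by
    have : 9 ≤ ⌊L⌋₊ := Nat.le_floor (by exact_mod_cast hL9)
    omega
  have hLl : L ≤ l := by
    rw [hl]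
    push_cast
    exact (Nat.lt_floor_add_one L).le
  have hlL : (l : ℝ) ≤ L + 1 := by
    rw [hl]
    push_cast
    linarith
  have hlr : (10 : ℝ) ≤ l := by exact_mod_cast hl10
  have hl2 : (l : ℝ) ^ 2 ≤ 100 / 81 * L ^ 2 := by
    have : (l : ℝ) ≤ 10 / 9 * L := by linarith
    nlinarith
  -- the sets
  obtain ⟨A', hA', hA'c⟩ : ∃ A' ⊆ A, A'.card = 6 * (s + 1) * l ^ 2 := by
    apply Finset.exists_subset_card_eq
    have h1 : ((6 * (s + 1) * l ^ 2 : ℕ) : ℝ) ≤ A.card := by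
      push_cast
      nlinarith
    exact_mod_cast h1
  have hmB : (((70 * (s + 1) * l + 20 * (6 * (s + 1) * l ^ 2 * (s + 1)) + 1 : ℕ)) : ℝ) ≤ B.card := by
    push_cast
    have h1 : (1 : ℝ) ≤ s + 1 := by linarith
    have h2 : ((s : ℝ) + 1) ≤ (s + 1) ^ 2 := by nlinarith
    have h3 : (l : ℝ) ≤ 10 / 81 * L ^ 2 := by nlinarith
    have h4 : 70 * ((s : ℝ) + 1) * l ≤ 70 * ((s + 1) ^ 2) * (10 / 81 * L ^ 2) := by
      have : 0 ≤ (l : ℝ) := by linarith
      have h5 : 70 * ((s : ℝ) + 1) * l ≤ 70 * ((s + 1) ^ 2) * l := by nlinarith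
      have h6 : 70 * (((s : ℝ) + 1) ^ 2) * l ≤ 70 * ((s + 1) ^ 2) * (10 / 81 * L ^ 2) :=
        mul_le_mul_of_nonneg_left h3 (by positivity)
      linarith
    have h7 : 20 * (6 * ((s : ℝ) + 1) * l ^ 2 * (s + 1)) ≤ 120 * (s + 1) ^ 2 * (100 / 81 * L ^ 2) := by
      have : 20 * (6 * ((s : ℝ) + 1) * l ^ 2 * (s + 1)) = 120 * (s + 1) ^ 2 * (l : ℝ) ^ 2 := by ring
      rw [this]
      exact mul_le_mul_of_nonneg_left hl2 (by positivity)
    have h8 : (1 : ℝ) ≤ (s + 1) ^ 2 * L ^ 2 * (1 / 81) := by nlinarith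
    nlinarith
  have hmB' : 70 * (s + 1) * l + 20 * (6 * (s + 1) * l ^ 2 * (s + 1)) + 1 ≤ B.card := by
    exact_mod_cast hmB
  refine core_V (s := s) (δ := 70 * (s + 1) * l) (I := B) (Cs := A') (by omega) ?_
    (fun a ha => hA a (hA' ha)) hB ?_ ?_ ?_ V hV hs (fun x hx c hc => ?_)
  · rw [← card_pos, hA'c]
    positivity
  · nlinarith
  · rw [hA'c]
    omega
  · rw [hA'c]
    exact phi_neg hl10 (by linarith) hLl
  · rw [add_comm x c]
    exact hcon c (hA' hc) x hx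

/-- **arithmetic progressions** -/
theorem progression {q : ℕ} (hq : 2 ≤ q) (V : Submodule ℚ ℝ) (hV : Module.Finite ℚ V)
    (a d : ℕ) (hd : d.Coprime q)
    (h : 200 * ((Module.finrank ℚ V : ℝ) + 1) ^ 2 * Real.log q ^ 2 ≤ q) :
    ∃ j : ℕ, (j : ℝ) < 200 * ((Module.finrank ℚ V : ℝ) + 1) ^ 2 * Real.log q ^ 2 ∧
      hur (((a + d * j : ℕ) : ℝ) / q) ∉ V ⊔ Submodule.span ℚ {(1 : ℝ)} := by
  obtain ⟨s, hs⟩ : ∃ s, Module.finrank ℚ V = s := ⟨_, rfl⟩
  rw [hs] at h ⊢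
  have hqr : (2 : ℝ) ≤ q := by exact_mod_cast hq
  have hs0 : (0 : ℝ) ≤ s := Nat.cast_nonneg s
  set L := Real.log q with hLdef
  have hL1 : 0.69 ≤ L := by
    have h1 := Real.log_two_gt_d9
    have h2 : Real.log 2 ≤ Real.log q := Real.log_le_log (by norm_num) hqr
    linarith
  have hL2 : 0.47 ≤ L ^ 2 := by nlinarith
  have hS1 : ((s : ℝ) + 1) ≤ (s + 1) ^ 2 := by nlinarith
  have hS2 : ((s : ℝ) + 1) * L ^ 2 ≤ (s + 1) ^ 2 * L ^ 2 :=
    mul_le_mul_of_nonneg_right hS1 (sq_nonneg L)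
  have hS4 : (1 : ℝ) ≤ ((s : ℝ) + 1) ^ 2 := by nlinarith
  have hS3 : 0.47 ≤ ((s : ℝ) + 1) ^ 2 * L ^ 2 := by
    have := mul_le_mul_of_nonneg_right hS4 (sq_nonneg L)
    linarith
  set α : ℕ := ⌈8 * ((s : ℝ) + 1) * L ^ 2⌉₊ with hα
  set β : ℕ := ⌈160 * ((s : ℝ) + 1) ^ 2 * L ^ 2⌉₊ with hβ
  have hα1 : (α : ℝ) < 8 * ((s : ℝ) + 1) * L ^ 2 + 1 := Nat.ceil_lt_add_one (by positivity)
  have hβ1 : (β : ℝ) < 160 * ((s : ℝ) + 1) ^ 2 * L ^ 2 + 1 := Nat.ceil_lt_add_one (by positivity)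
  have hαβ : (α : ℝ) + β ≤ 200 * ((s : ℝ) + 1) ^ 2 * L ^ 2 := by nlinarith
  have hαq : α ≤ q := by
    have : (α : ℝ) ≤ q := by
      have : (0 : ℝ) ≤ β := Nat.cast_nonneg β
      linarith
    exact_mod_cast this
  have hβq : β ≤ q := by
    have : (β : ℝ) ≤ q := by
      have : (0 : ℝ) ≤ α := Nat.cast_nonneg α
      linarith
    exact_mod_cast this
  have hinj : ∀ (e N : ℕ), N ≤ q → Set.InjOn (fun i : ℕ => (e + d * i) % q) (range N : Set ℕ) := by
    intro e N hN i hi j hj hij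
    have hi' : i < q := lt_of_lt_of_le (mem_range.1 (mem_coe.1 hi)) hN
    have hj' : j < q := lt_of_lt_of_le (mem_range.1 (mem_coe.1 hj)) hN
    have h1 : e + d * i ≡ e + d * j [MOD q] := hij
    have h2 : d * i ≡ d * j [MOD q] := Nat.ModEq.add_left_cancel' e h1
    have h3 : i ≡ j [MOD q] := Nat.ModEq.cancel_left_of_coprime (by
      rw [Nat.coprime_comm] at hd
      exact hd) h2
    exact Nat.ModEq.eq_of_lt_of_lt h3 hi' hj'
  obtain ⟨x, hx, y, hy, hxy⟩ := sumset hq V hV ((range α).image fun i => (0 + d * i) % q)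
    ((range β).image fun i => (a + d * i) % q)
    (fun x hx => by
      obtain ⟨i, _, rfl⟩ := mem_image.1 hx
      exact Nat.mod_lt _ (by omega))
    (fun x hx => by
      obtain ⟨i, _, rfl⟩ := mem_image.1 hx
      exact Nat.mod_lt _ (by omega))
    (by
      rw [hs, card_image_of_injOn (hinj 0 α hαq), card_range]
      exact Nat.le_ceil _)
    (by
      rw [hs, card_image_of_injOn (hinj a β hβq), card_range]
      exact Nat.le_ceil _)
  obtain ⟨i, hi, rfl⟩ := mem_image.1 hx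
  obtain ⟨j, hj, rfl⟩ := mem_image.1 hy
  refine ⟨i + j, ?_, ?_⟩
  · have h1 : (i : ℝ) + 1 ≤ α := by exact_mod_cast mem_range.1 hi
    have h2 : (j : ℝ) + 1 ≤ β := by exact_mod_cast mem_range.1 hj
    push_cast
    linarith
  · intro hmem
    apply hxy
    rw [← hur_mod q _ (by omega)]
    have e1 : ((0 + d * i) % q + (a + d * j) % q) % q = (a + d * (i + j)) % q := by
      rw [← Nat.add_mod]
      congr 1
      ring
    rw [e1, hur_mod q _ (by omega)]
    exact hmem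

/-- **dimension** -/
theorem dimension {q m : ℕ} (hq : 2 ≤ q) (hm : m ≤ q) (a d : ℕ) (hd : d.Coprime q) :
    Real.sqrt m / (15 * Real.log q) ≤
      Module.finrank ℚ (Submodule.span ℚ
        (((range m).image fun j : ℕ => hur (((a + d * j : ℕ) : ℝ) / q) : Finset ℝ) : Set ℝ)) + 1 := by
  classical
  set V := Submodule.span ℚ
    (((range m).image fun j : ℕ => hur (((a + d * j : ℕ) : ℝ) / q) : Finset ℝ) : Set ℝ) with hV
  have hfin : Module.Finite ℚ V := Module.Finite.span_finset ℚ _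
  have hqr : (2 : ℝ) ≤ q := by exact_mod_cast hq
  set L := Real.log q with hLdef
  have hL1 : 0.69 ≤ L := by
    have h1 := Real.log_two_gt_d9
    have h2 : Real.log 2 ≤ Real.log q := Real.log_le_log (by norm_num) hqr
    linarith
  by_contra hcon
  push Not at hcon
  have hD0 : (0 : ℝ) ≤ Module.finrank ℚ V := Nat.cast_nonneg _
  have h1 : 200 * ((Module.finrank ℚ V : ℝ) + 1) ^ 2 * L ^ 2 ≤ m := by
    rw [lt_div_iff₀ (by positivity)] at hcon
    have h2 : ((Module.finrank ℚ V : ℝ) + 1) * (15 * L) ≤ Real.sqrt m := hcon.le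
    have h3 : (((Module.finrank ℚ V : ℝ) + 1) * (15 * L)) ^ 2 ≤ m := by
      have h4 := pow_le_pow_left₀ (by positivity) h2 2
      rwa [Real.sq_sqrt (Nat.cast_nonneg m)] at h4
    nlinarith [sq_nonneg (((Module.finrank ℚ V : ℝ) + 1) * L)]
  have hmr : (m : ℝ) ≤ q := by exact_mod_cast hm
  obtain ⟨j, hj, hj2⟩ := progression hq V hfin a d hd (h1.trans hmr)
  apply hj2
  apply Submodule.mem_sup_left
  apply Submodule.subset_span
  rw [mem_coe, mem_image]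
  refine ⟨j, mem_range.2 ?_, rfl⟩
  have : (j : ℝ) < m := lt_of_lt_of_le hj h1
  exact_mod_cast this

/-- **near one half** -/
theorem near_half {q : ℕ} (hq : 2 ≤ q) (he : Even q) (h : 800 * Real.log q ^ 2 ≤ q) :
    ∃ j : ℕ, (j : ℝ) < 800 * Real.log q ^ 2 ∧
      ∀ a b : ℚ, hur (1 / 2 + (j : ℝ) / q) ≠ a + b * Real.pi ^ 3 := by
  obtain ⟨N, hN⟩ := he
  have hq0 : (0 : ℝ) < q := by exact_mod_cast (by omega : 0 < q)
  have hfin : Module.Finite ℚ (Submodule.span ℚ {(Real.pi ^ 3 : ℝ)}) := by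
    have := Module.Finite.span_finset ℚ ({(Real.pi ^ 3 : ℝ)} : Finset ℝ)
    rwa [Finset.coe_singleton] at this
  have hrank : Module.finrank ℚ (Submodule.span ℚ {(Real.pi ^ 3 : ℝ)}) = 1 :=
    finrank_span_singleton (by positivity)
  obtain ⟨j, hj, hj2⟩ := progression hq (Submodule.span ℚ {(Real.pi ^ 3 : ℝ)}) hfin N 1
    (Nat.coprime_one_left q) (by
      rw [hrank]
      push_cast
      linarith)
  rw [hrank] at hj
  push_cast at hj
  refine ⟨j, by linarith, fun a b hab => hj2 ?_⟩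
  have e1 : (((N + 1 * j : ℕ) : ℝ)) / q = 1 / 2 + (j : ℝ) / q := by
    have : (q : ℝ) = N + N := by rw [hN]; push_cast; ring
    have hN0 : (N : ℝ) ≠ 0 := by
      intro h0
      rw [h0] at this
      linarith
    push_cast
    rw [this]
    field_simp
    ring
  rw [e1, hab]
  rw [add_comm]
  apply Submodule.add_mem_sup
  · have h1 : (b : ℝ) * Real.pi ^ 3 = b • (Real.pi ^ 3 : ℝ) := by rw [Rat.smul_def]
    rw [h1]
    exact Submodule.smul_mem _ _ (Submodule.mem_span_singleton_self _)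
  · have h1 : (a : ℝ) = a • (1 : ℝ) := by rw [Rat.smul_def, mul_one]
    rw [h1]
    exact Submodule.smul_mem _ _ (Submodule.mem_span_singleton_self _)

end HZ7
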