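import Pool.Agent.LibHZ7.Defs

/-!
# Row A1b: `T * C(T - 1, i)` divides `lcm(1, …, T)` (SHORT/MEDIUM, ONLY MATHLIB)

Plan (Leibniz' harmonic triangle): write `L T i = (T + 1) * T.choose i` (`T := T - 1`); claim
`L T i ∣ lcmUpto (T + 1)` for `i ≤ T`, induction on `i` (for all `T`).  `i = 0`: `HZ89.dvd_lcm'` (LibHZ89/A2) or
`Finset.dvd_lcm`.  Step, `T = T' + 1 ≥ i + 1`: `1 / L (T'+1) (i+1) = 1 / L T' i - 1 / L (T'+1) i` in `ℚ`
(`Nat.succ_mul_choose_eq` etc.), multiply by `lcmUpto (T' + 2)`, which is a multiple of `lcmUpto (T' + 1)`, of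
`L T' i` and of `L (T' + 1) i`; so `lcmUpto (T'+2) / L (T'+1) (i+1)` is an integer (`Rat`/`Int` cast, or multiply
out: `L T' i * L (T'+1) i = L (T'+1) (i+1) * (L (T'+1) i - L T' i)`).
Other way: `Nat.factorization` (`Nat.factorization_lcmUpto`) with Kummer.
-/

namespace HZ7

open Finset

private theorem a1b_dvd_lcm {a m : ℕ} (h1 : 1 ≤ a) (h2 : a ≤ m) : a ∣ Nat.lcmUpto m :=
  Finset.dvd_lcm (f := id) (Finset.mem_Icc.2 ⟨h1, h2⟩)

private theorem a1b_mono (T : ℕ) : Nat.lcmUpto T ∣ Nat.lcmUpto (T + 1) := by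
  unfold Nat.lcmUpto
  refine Finset.lcm_dvd fun x hx => ?_
  rw [Finset.mem_Icc] at hx
  exact Finset.dvd_lcm (f := id) (Finset.mem_Icc.2 ⟨hx.1, by omega⟩)

private theorem a1b_main (i : ℕ) : ∀ T, i ≤ T → (T + 1) * T.choose i ∣ Nat.lcmUpto (T + 1) := by
  induction i with
  | zero =>
    intro T _
    rw [Nat.choose_zero_right, mul_one]
    exact a1b_dvd_lcm (by omega) le_rfl
  | succ i ih =>
    intro T hT
    obtain ⟨T, rfl⟩ : ∃ T', T = T' + 1 := ⟨T - 1, by omega⟩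
    have h1 : (T + 1) * T.choose i ∣ Nat.lcmUpto (T + 1 + 1) :=
      (ih T (by omega)).trans (a1b_mono (T + 1))
    have h2 : (T + 1 + 1) * (T + 1).choose i ∣ Nat.lcmUpto (T + 1 + 1) := ih (T + 1) (by omega)
    have h3 : (T + 1) * T.choose i = (T + 1).choose (i + 1) * (i + 1) := Nat.add_one_mul_choose_eq T i
    have h4 : (T + 1).choose (i + 1) * (i + 1) = (T + 1).choose i * (T + 1 - i) :=
      Nat.choose_succ_right_eq (T + 1) i
    rw [h3] at h1
    obtain ⟨x, hx⟩ := h1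
    obtain ⟨y, hy⟩ := h2
    have hX : (T + 1).choose (i + 1) ≠ 0 := (Nat.choose_pos (by omega)).ne'
    have hY : (T + 1).choose i ≠ 0 := (Nat.choose_pos (by omega)).ne'
    rw [← Int.natCast_dvd_natCast]
    refine ⟨(x : ℤ) - y, ?_⟩
    have h4' : ((T + 1).choose (i + 1) : ℤ) * (i + 1) = (T + 1).choose i * (T + 1 - i) := by
      have h5 := congrArg (Nat.cast : ℕ → ℤ) h4
      push_cast [Nat.cast_sub (show i ≤ T + 1 by omega)] at h5
      exact h5
    have hx' : ((Nat.lcmUpto (T + 1 + 1) : ℕ) : ℤ) = (T + 1).choose (i + 1) * (i + 1) * x := by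
      exact_mod_cast hx
    have hy' : ((Nat.lcmUpto (T + 1 + 1) : ℕ) : ℤ) = (T + 1 + 1) * (T + 1).choose i * y := by
      exact_mod_cast hy
    have hne : ((T + 1).choose (i + 1) : ℤ) * (i + 1) * ((T + 1 + 1) * (T + 1).choose i) ≠ 0 := by
      positivity
    apply mul_left_cancel₀ hne
    push_cast
    generalize ((T + 1).choose (i + 1) : ℤ) = X at *
    generalize ((T + 1).choose i : ℤ) = Y at *
    generalize ((Nat.lcmUpto (T + 1 + 1) : ℕ) : ℤ) = M at *
    have e1 : X * (i + 1) * ((T + 1 + 1) * Y) * ((T + 1 + 1) * X * (x - y)) =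
        (T + 1 + 1) * X * ((T + 1 + 1) * Y * M - X * (i + 1) * M) := by
      linear_combination (-(T + 1 + 1) * X * ((T + 1 + 1) * Y)) * hx' + (T + 1 + 1) * X * (X * (i + 1)) * hy'
    rw [e1]
    linear_combination ((T + 1 + 1) * X * M) * h4'

theorem choose_dvd_lcm {T i : ℕ} (hi : i < T) : T * (T - 1).choose i ∣ Nat.lcmUpto T := by
  obtain ⟨T, rfl⟩ : ∃ T', T = T' + 1 := ⟨T - 1, by omega⟩
  exact a1b_main i T (by omega)

end HZ7
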