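import Pool.Agent.LibHZ7.A1

/-!
# Row A2: integrality (MEDIUM)

Plan: with `v : ℤ = j + c - 2 q n` the factors of `WP` at `j` are `v + q i`, `i < T = 3 n + 1`, and the terms of
`ps q n (j + c)` are `1 / |v + q i| ^ 3`.  By `win_dvd` there is an integer `z i` with
`q ^ T * lcmUpto T * ∏_{erase i} (v + q k) = T! * z i`, so `bet * ∏_{all} = z i * (v + q i)`
(`Finset.mul_prod_erase`).  `W_int`: `i = 0`, cube.  `Wps_int`: the term `i` is
`(z i * (v + q i)) ^ 3 * (1 / |v + q i| ^ 3)`, which is `0` if `v + q i = 0`, and `± z i ^ 3` otherwise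
(`|x| ^ 3 = ± x ^ 3`); a sum of integers is an integer (`HZ89.f3_sum`).
-/

namespace HZ7

open Finset HZ89 Polynomial

private theorem a2_key (q n : ℕ) (v : ℤ) {i : ℕ} (hi : i < 3 * n + 1) :
    ∃ z : ℤ, bet q n * ∏ k ∈ range (3 * n + 1), ((v : ℝ) + q * k) = z * ((v : ℝ) + q * i) := by
  obtain ⟨z, hz⟩ := win_dvd q hi v
  refine ⟨z, ?_⟩
  have hz' := congrArg (Int.cast : ℤ → ℝ) hz
  push_cast at hz'
  have hf : (((3 * n + 1).factorial : ℕ) : ℝ) ≠ 0 := by exact_mod_cast Nat.factorial_ne_zero _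
  rw [← Finset.mul_prod_erase (range (3 * n + 1)) (fun k : ℕ => (v : ℝ) + q * k)
    (Finset.mem_range.2 hi)]
  unfold bet
  rw [div_mul_eq_mul_div, div_eq_iff hf]
  linear_combination ((v : ℝ) + q * i) * hz'

private theorem a2_eval (q n c j : ℕ) : (WP q n c).eval (j : ℝ) =
    (bet q n * ∏ k ∈ range (3 * n + 1),
      ((((j : ℤ) + c - 2 * q * n : ℤ) : ℝ) + q * k)) ^ 3 := by
  unfold WP
  rw [eval_pow, eval_mul, eval_C, eval_prod]
  congr 2
  refine Finset.prod_congr rfl fun k _ => ?_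
  simp only [eval_add, eval_X, eval_C]
  push_cast
  ring

theorem W_int (q n c j : ℕ) : ∃ z : ℤ, (WP q n c).eval (j : ℝ) = z := by
  obtain ⟨z, hz⟩ := a2_key q n ((j : ℤ) + c - 2 * q * n) (i := 0) (by omega)
  refine ⟨(z * ((j : ℤ) + c - 2 * q * n)) ^ 3, ?_⟩
  rw [a2_eval, hz]
  push_cast
  ring

theorem Wps_int (q n c j : ℕ) : ∃ z : ℤ, (WP q n c).eval (j : ℝ) * ps q n ((j : ℝ) + c) = z := by
  unfold ps
  rw [Finset.mul_sum]
  refine f3_sum _ _ fun i hi => ?_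
  obtain ⟨z, hz⟩ := a2_key q n ((j : ℤ) + c - 2 * q * n) (Finset.mem_range.1 hi)
  have h1 : (j : ℝ) + c - 2 * q * n + q * i =
      (((j : ℤ) + c - 2 * q * n : ℤ) : ℝ) + q * i := by
    push_cast
    ring
  rw [a2_eval, hz, h1]
  set x : ℝ := (((j : ℤ) + c - 2 * q * n : ℤ) : ℝ) + q * i with hx
  rcases eq_or_ne x 0 with h0 | h0
  · exact ⟨0, by rw [h0]; simp⟩
  · rcases abs_choice x with h2 | h2
    · refine ⟨z ^ 3, ?_⟩
      rw [h2]
      push_cast
      field_simp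
    · refine ⟨-z ^ 3, ?_⟩
      rw [h2]
      push_cast
      have h3 : (-x) ^ 3 = -x ^ 3 := by ring
      rw [h3]
      field_simp

end HZ7
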