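import Pool.Agent.LibHZ7.Defs

/-!
# Row B1: sizes (SHORT/MEDIUM)

Plan: `W_le`: `T = 3 n + 1`; every factor: `|j + c - 2 q n + q i| ≤ q (2 n + 1) ≤ q T` (`0 ≤ j < q n`, `0 ≤ c < q`,
`i ≤ 3 n`), so the product is at most `(q T) ^ T`; `T ^ T / T! ≤ exp T` (`Real.pow_div_factorial_le_exp`);
`HZ89.lcm_le : Nat.lcmUpto m ≤ 2 ^ (8 * m)` (LibHZ89/A2).
`ch_le`: `Nat.choose_le_pow_div` (`C(j,k) ≤ j ^ k / k!`), `j ^ k ≤ q ^ k n ^ k`, `n ^ k / k! ≤ exp n`.
`W_natDegree`, `W_ne`: `natDegree_prod_le` or `monic_prod_of_monic`; `bet > 0`.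
-/

namespace HZ7

open Finset HZ89 Polynomial

theorem W_le {q n c j : ℕ} (hq : 1 ≤ q) (hc : c < q) (hj : j < q * n) :
    |(WP q n c).eval (j : ℝ)| ≤
      ((q : ℝ) ^ (2 * (3 * n + 1)) * 2 ^ (8 * (3 * n + 1)) * Real.exp (3 * n + 1)) ^ 3 := by
  have hq1 : (1 : ℝ) ≤ q := by exact_mod_cast hq
  have hq0 : (0 : ℝ) < q := by linarith
  have hn0 : (0 : ℝ) ≤ n := Nat.cast_nonneg n
  have hc1 : (c : ℝ) < q := by exact_mod_cast hc
  have hc0 : (0 : ℝ) ≤ c := Nat.cast_nonneg c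
  have hj1 : (j : ℝ) < q * n := by exact_mod_cast hj
  have hj0 : (0 : ℝ) ≤ j := Nat.cast_nonneg j
  have hev : (WP q n c).eval (j : ℝ) =
      (bet q n * ∏ i ∈ range (3 * n + 1), ((j : ℝ) + ((c : ℝ) - 2 * q * n + q * i))) ^ 3 := by
    simp only [WP, eval_pow, eval_mul, eval_C, eval_prod, eval_add, eval_X]
  rw [hev, abs_pow]
  have hbet : |bet q n| = bet q n := abs_of_nonneg (by unfold bet; positivity)
  have hprod : |∏ i ∈ range (3 * n + 1), ((j : ℝ) + ((c : ℝ) - 2 * q * n + q * i))| ≤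
      ((q : ℝ) * (3 * n + 1)) ^ (3 * n + 1) := by
    rw [Finset.abs_prod]
    calc ∏ i ∈ range (3 * n + 1), |(j : ℝ) + ((c : ℝ) - 2 * q * n + q * i)|
        ≤ ∏ _i ∈ range (3 * n + 1), ((q : ℝ) * (3 * n + 1)) := by
          refine Finset.prod_le_prod (fun _ _ => abs_nonneg _) fun i hi => ?_
          have hi1 : (i : ℝ) ≤ 3 * n := by
            have := Finset.mem_range.mp hi
            exact_mod_cast (by omega : i ≤ 3 * n)
          have hi0 : (0 : ℝ) ≤ i := Nat.cast_nonneg i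
          have hqn : (0 : ℝ) ≤ q * n := by positivity
          have hqi : (q : ℝ) * i ≤ q * (3 * n) := by gcongr
          have hqi0 : (0 : ℝ) ≤ q * i := by positivity
          rw [abs_le]
          constructor
          · nlinarith
          · nlinarith
      _ = ((q : ℝ) * (3 * n + 1)) ^ (3 * n + 1) := by
          rw [Finset.prod_const, Finset.card_range]
  have hlcm : (Nat.lcmUpto (3 * n + 1) : ℝ) ≤ 2 ^ (8 * (3 * n + 1)) := by
    exact_mod_cast lcm_le (3 * n + 1)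
  have hexp : ((3 * n + 1 : ℕ) : ℝ) ^ (3 * n + 1) / ((3 * n + 1).factorial : ℝ) ≤
      Real.exp ((3 * n + 1 : ℕ) : ℝ) := Real.pow_div_factorial_le_exp _ (Nat.cast_nonneg _) _
  push_cast at hexp
  have hfac : (0 : ℝ) < ((3 * n + 1).factorial : ℝ) := by exact_mod_cast Nat.factorial_pos _
  refine pow_le_pow_left₀ (abs_nonneg _) ?_ 3
  rw [abs_mul, hbet]
  calc bet q n * |∏ i ∈ range (3 * n + 1), ((j : ℝ) + ((c : ℝ) - 2 * q * n + q * i))|
      ≤ bet q n * ((q : ℝ) * (3 * n + 1)) ^ (3 * n + 1) := by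
        have : 0 ≤ bet q n := by unfold bet; positivity
        gcongr
    _ = (q : ℝ) ^ (2 * (3 * n + 1)) * (Nat.lcmUpto (3 * n + 1) : ℝ) *
          ((3 * n + 1 : ℝ) ^ (3 * n + 1) / ((3 * n + 1).factorial : ℝ)) := by
        rw [bet, mul_pow, two_mul (3 * n + 1), pow_add]
        ring
    _ ≤ (q : ℝ) ^ (2 * (3 * n + 1)) * 2 ^ (8 * (3 * n + 1)) * Real.exp (3 * n + 1) := by
        gcongr

theorem ch_le {q n k j : ℕ} (hj : j < q * n) :
    (j.choose k : ℝ) ≤ Real.exp n * (q : ℝ) ^ k := by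
  have h1 : (j.choose k : ℝ) ≤ (j : ℝ) ^ k / (k.factorial : ℝ) := Nat.choose_le_pow_div k j
  have h2 : (n : ℝ) ^ k / (k.factorial : ℝ) ≤ Real.exp n :=
    Real.pow_div_factorial_le_exp _ (Nat.cast_nonneg _) _
  have hj1 : (j : ℝ) ≤ q * n := by exact_mod_cast hj.le
  have hfac : (0 : ℝ) < (k.factorial : ℝ) := by exact_mod_cast Nat.factorial_pos _
  calc (j.choose k : ℝ) ≤ (j : ℝ) ^ k / (k.factorial : ℝ) := h1
    _ ≤ ((q : ℝ) * n) ^ k / (k.factorial : ℝ) := by gcongr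
    _ = (n : ℝ) ^ k / (k.factorial : ℝ) * (q : ℝ) ^ k := by rw [mul_pow]; ring
    _ ≤ Real.exp n * (q : ℝ) ^ k := by gcongr

theorem W_natDegree (q n c : ℕ) : (WP q n c).natDegree ≤ 3 * (3 * n + 1) := by
  unfold WP
  refine natDegree_pow_le.trans ?_
  refine Nat.mul_le_mul_left 3 ?_
  refine (natDegree_C_mul_le _ _).trans ?_
  refine (natDegree_prod_le _ _).trans ?_
  calc ∑ i ∈ range (3 * n + 1), (X + C ((c : ℝ) - 2 * q * n + q * i) : ℝ[X]).natDegree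
      ≤ ∑ _i ∈ range (3 * n + 1), 1 := Finset.sum_le_sum fun i _ => by rw [natDegree_X_add_C]
    _ = 3 * n + 1 := by simp

theorem W_ne {q n c : ℕ} (hq : 1 ≤ q) : WP q n c ≠ 0 := by
  unfold WP
  refine pow_ne_zero 3 (mul_ne_zero ?_ ?_)
  · have hq0 : (0 : ℝ) < q := by exact_mod_cast hq
    have hl : (0 : ℝ) < (Nat.lcmUpto (3 * n + 1) : ℝ) := by exact_mod_cast Nat.lcmUpto_pos _
    have hf : (0 : ℝ) < ((3 * n + 1).factorial : ℝ) := by exact_mod_cast Nat.factorial_pos _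
    have hb : bet q n ≠ 0 := by
      unfold bet
      positivity
    exact C_ne_zero.mpr hb
  · exact Finset.prod_ne_zero_iff.mpr fun i _ => X_add_C_ne_zero _

end HZ7
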