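import Mathlib

/-!
# Row C1: the Taylor polynomial of `1 / (a + v)³` (SHORT/MEDIUM, ONLY MATHLIB)

Plan: `rem3`: exact formula for the remainder, induction on `D` (`field_simp; ring` with `1 + x ≠ 0`):
`1 / (1 + x) ^ 3 - ∑_{i < D} (-1) ^ i (i+1)(i+2)/2 x ^ i =
 (-x) ^ D ((D+1)(D+2)/2 + D (D+2) x + D (D+1)/2 x²) / (1 + x) ^ 3`.
For `|x| ≤ 1/3`: `(1 + x) ^ 3 ≥ 8/27`, the bracket is at most `(D+2)² (1/2 + 1/3 + 1/18)`, and
`(8/9) (27/8) = 3`.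
`taylor3`: `x = v / a`, divide by `a ^ 3`.
-/

namespace HZ7

open Finset

private theorem c1_key {x : ℝ} (hx : 1 + x ≠ 0) (D : ℕ) :
    1 / (1 + x) ^ 3 - ∑ i ∈ range D, (-1) ^ i * (((i : ℝ) + 1) * (i + 2) / 2) * x ^ i =
      (-x) ^ D * (((D : ℝ) + 1) * (D + 2) / 2 + D * (D + 2) * x + D * (D + 1) / 2 * x ^ 2) /
        (1 + x) ^ 3 := by
  induction D with
  | zero => simp
  | succ D ih =>
    rw [sum_range_succ, ← sub_sub, ih]
    have h1 : (-x) ^ D = (-1) ^ D * x ^ D := by rw [← mul_pow]; congr 1; ring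
    rw [pow_succ (-x) D, h1]
    push_cast
    field_simp
    ring

theorem rem3 {x : ℝ} (hx : |x| ≤ 1 / 3) (D : ℕ) :
    |1 / (1 + x) ^ 3 - ∑ i ∈ range D, (-1) ^ i * (((i : ℝ) + 1) * (i + 2) / 2) * x ^ i| ≤
      3 * ((D : ℝ) + 2) ^ 2 * (1 / 3) ^ D := by
  have h1 := abs_le.1 hx
  have h1x : 2 / 3 ≤ 1 + x := by linarith [h1.1]
  have h0 : (0 : ℝ) < 1 + x := by linarith
  have hD : (0 : ℝ) ≤ D := Nat.cast_nonneg D
  rw [c1_key h0.ne' D, abs_div, abs_mul, abs_pow, abs_neg,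
    abs_of_pos (show (0 : ℝ) < (1 + x) ^ 3 by positivity), div_le_iff₀ (by positivity)]
  have h2 : |x| ^ D ≤ (1 / 3) ^ D := pow_le_pow_left₀ (abs_nonneg x) hx D
  have h3 : |((D : ℝ) + 1) * (D + 2) / 2 + D * (D + 2) * x + D * (D + 1) / 2 * x ^ 2| ≤
      8 / 9 * ((D : ℝ) + 2) ^ 2 := by
    have e1 : |((D : ℝ) + 1) * (D + 2) / 2| = ((D : ℝ) + 1) * (D + 2) / 2 :=
      abs_of_nonneg (by positivity)
    have e2 : |(D : ℝ) * (D + 2) * x| ≤ (D : ℝ) * (D + 2) * (1 / 3) := by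
      rw [abs_mul, abs_of_nonneg (show (0 : ℝ) ≤ D * (D + 2) by positivity)]
      exact mul_le_mul_of_nonneg_left hx (by positivity)
    have e3 : |(D : ℝ) * (D + 1) / 2 * x ^ 2| ≤ (D : ℝ) * (D + 1) / 2 * (1 / 9) := by
      rw [abs_mul, abs_of_nonneg (show (0 : ℝ) ≤ D * (D + 1) / 2 by positivity), abs_pow]
      refine mul_le_mul_of_nonneg_left ?_ (by positivity)
      have := pow_le_pow_left₀ (abs_nonneg x) hx 2
      norm_num at this ⊢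
      exact this
    have e4 := abs_add_three (((D : ℝ) + 1) * (D + 2) / 2) (D * (D + 2) * x)
      (D * (D + 1) / 2 * x ^ 2)
    nlinarith
  have h4 : (8 : ℝ) / 27 ≤ (1 + x) ^ 3 := by
    have := pow_le_pow_left₀ (by norm_num) h1x 3
    norm_num at this ⊢
    exact this
  calc |x| ^ D * |((D : ℝ) + 1) * (D + 2) / 2 + D * (D + 2) * x + D * (D + 1) / 2 * x ^ 2|
      ≤ (1 / 3) ^ D * (8 / 9 * ((D : ℝ) + 2) ^ 2) :=
        mul_le_mul h2 h3 (abs_nonneg _) (by positivity)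
    _ = 3 * ((D : ℝ) + 2) ^ 2 * (1 / 3) ^ D * (8 / 27) := by ring
    _ ≤ 3 * ((D : ℝ) + 2) ^ 2 * (1 / 3) ^ D * (1 + x) ^ 3 :=
        mul_le_mul_of_nonneg_left h4 (by positivity)

theorem taylor3 {a v : ℝ} (ha : 0 < a) (hv : |v| ≤ a / 3) (D : ℕ) :
    |1 / (a + v) ^ 3 - ∑ i ∈ range D, (-1) ^ i * (((i : ℝ) + 1) * (i + 2) / 2) * (1 / a ^ (3 + i)) *
      v ^ i| ≤ 3 * ((D : ℝ) + 2) ^ 2 * (1 / 3) ^ D * (1 / a ^ 3) := by
  have hx : |v / a| ≤ 1 / 3 := by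
    rw [abs_div, abs_of_pos ha, div_le_iff₀ ha]
    linarith
  have h1 := rem3 hx D
  have e1 : 1 / (a + v) ^ 3 = 1 / a ^ 3 * (1 / (1 + v / a) ^ 3) := by
    have : a + v = a * (1 + v / a) := by field_simp
    rw [this, mul_pow, one_div_mul_one_div]
  have e2 : ∑ i ∈ range D, (-1) ^ i * (((i : ℝ) + 1) * (i + 2) / 2) * (1 / a ^ (3 + i)) * v ^ i =
      1 / a ^ 3 * ∑ i ∈ range D, (-1) ^ i * (((i : ℝ) + 1) * (i + 2) / 2) * (v / a) ^ i := by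
    rw [mul_sum]
    refine sum_congr rfl fun i _ => ?_
    rw [div_pow, pow_add]
    field_simp
  rw [e1, e2, ← mul_sub, abs_mul, abs_of_pos (show (0 : ℝ) < 1 / a ^ 3 by positivity), mul_comm]
  exact mul_le_mul_of_nonneg_right h1 (by positivity)

end HZ7
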