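import Pool.Agent.LibHZ7.C1

/-!
# Row C2: the Taylor polynomial of a sum (MEDIUM, ONLY MATHLIB + C1)

Plan: `G = ∑_{i < D} C ((-1) ^ i (i+1)(i+2)/2 * ∑' m, 1 / a m ^ (3 + i)) * X ^ i`; `1 / a m ^ (3+i)` is summable
(`≤ (1/h) ^ i * (1 / a m ^ 3)`, as `a m ≥ 3 h ≥ h`; `h > 0`).  `∑' m, 1 / (a m + v) ^ 3` is summable
(`a m + v ≥ (2/3) a m`).  `G(v) = ∑' m, (Taylor polynomial of the term m)` (`Summable.tsum_finsetSum`,
`tsum_mul_left`); the difference is `∑' m` of the remainders, each `≤ 3 (D+2)² 3⁻ᴰ / a m ^ 3` (`taylor3`):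
`tsum_of_norm_bounded`, or `norm_tsum_le_tsum_norm` and `Summable.tsum_le_tsum`.
-/

namespace HZ7

open Finset Polynomial

theorem sum_taylor {a : ℕ → ℝ} {h A : ℝ} (hh : 0 < h) (ha : ∀ m, 3 * h ≤ a m)
    (hs : Summable fun m => 1 / a m ^ 3) (hA : ∑' m, 1 / a m ^ 3 ≤ A) {D : ℕ} (hD : 1 ≤ D) :
    ∃ G : ℝ[X], G.natDegree < D ∧ ∀ v : ℝ, |v| ≤ h →
      |(∑' m, 1 / (a m + v) ^ 3) - G.eval v| ≤ 3 * A * ((D : ℝ) + 2) ^ 2 * (1 / 3) ^ D := by
  have ha0 : ∀ m, 0 < a m := fun m => by linarith [ha m]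
  have hsi : ∀ i : ℕ, Summable fun m => 1 / a m ^ (3 + i) := by
    intro i
    refine Summable.of_nonneg_of_le (fun m => by have := ha0 m; positivity) (fun m => ?_)
      (hs.mul_left ((1 / h) ^ i))
    have h0 := ha0 m
    have h1 : 1 / a m ≤ 1 / h := one_div_le_one_div_of_le hh (by linarith [ha m])
    have h2 : 1 / a m ^ (3 + i) = (1 / a m) ^ i * (1 / a m ^ 3) := by
      rw [one_div_pow, one_div_mul_one_div, ← pow_add, add_comm]
    rw [h2]
    exact mul_le_mul_of_nonneg_right (pow_le_pow_left₀ (by positivity) h1 i) (by positivity)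
  refine ⟨∑ i ∈ range D, C ((-1) ^ i * (((i : ℝ) + 1) * (i + 2) / 2) *
    ∑' m, 1 / a m ^ (3 + i)) * X ^ i, ?_, fun v hv => ?_⟩
  · have := natDegree_sum_le_of_forall_le (range D) (fun i => C ((-1) ^ i *
      (((i : ℝ) + 1) * (i + 2) / 2) * ∑' m, 1 / a m ^ (3 + i)) * X ^ i) (n := D - 1)
      (fun i hi => (natDegree_C_mul_X_pow_le _ i).trans (by
        have := mem_range.1 hi; omega))
    omega
  · have hv3 : ∀ m, |v| ≤ a m / 3 := fun m => by linarith [ha m]
    have hav : ∀ m, 2 / 3 * a m ≤ a m + v := fun m => by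
      have := (abs_le.1 (hv3 m)).1
      linarith
    have hsv : Summable fun m => 1 / (a m + v) ^ 3 := by
      refine Summable.of_nonneg_of_le (fun m => ?_) (fun m => ?_) (hs.mul_left (27 / 8))
      · have h0 := ha0 m
        have h1 := hav m
        have : 0 < a m + v := by linarith
        positivity
      · have h0 := ha0 m
        have h1 := pow_le_pow_left₀ (by positivity) (hav m) 3
        have h2 := one_div_le_one_div_of_le (by positivity) h1
        have h3 : 1 / (2 / 3 * a m) ^ 3 = 27 / 8 * (1 / a m ^ 3) := by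
          rw [mul_pow]
          field_simp
          norm_num
        rwa [h3] at h2
    have hG : HasSum (fun m => ∑ i ∈ range D, (-1) ^ i * (((i : ℝ) + 1) * (i + 2) / 2) *
        (1 / a m ^ (3 + i)) * v ^ i) ((∑ i ∈ range D, C ((-1) ^ i * (((i : ℝ) + 1) * (i + 2) / 2) *
          ∑' m, 1 / a m ^ (3 + i)) * X ^ i : ℝ[X]).eval v) := by
      rw [eval_finsetSum]
      refine hasSum_sum fun i _ => ?_
      rw [eval_mul, eval_C, eval_pow, eval_X]
      exact ((hsi i).hasSum.mul_left _).mul_right _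
    have hd := hsv.hasSum.sub hG
    rw [← hd.tsum_eq, ← Real.norm_eq_abs]
    have hb : HasSum (fun m => 3 * ((D : ℝ) + 2) ^ 2 * (1 / 3) ^ D * (1 / a m ^ 3))
        (3 * ((D : ℝ) + 2) ^ 2 * (1 / 3) ^ D * ∑' m, 1 / a m ^ 3) := hs.hasSum.mul_left _
    refine (tsum_of_norm_bounded hb fun m => ?_).trans ?_
    · rw [Real.norm_eq_abs]
      exact taylor3 (ha0 m) (hv3 m) D
    · have : 3 * A * ((D : ℝ) + 2) ^ 2 * (1 / 3) ^ D =
          3 * ((D : ℝ) + 2) ^ 2 * (1 / 3) ^ D * A := by ring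
      rw [this]
      exact mul_le_mul_of_nonneg_left hA (by positivity)

end HZ7
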