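import Pool.Agent.LibHZ7.Defs

/-!
# Row C3: the sum over the integers minus the window (MEDIUM)

Plan: `SS_split`.  For `0 ≤ u < q (n + 1)`, `n ≥ 1`, `q ≥ 1`.  The sum over `ℤ` converges absolutely.  Shift the
index: `t = i - 2 n`: `∑' t : ℤ, f t = ∑' i : ℤ, f (i - 2 n)` (`Equiv.tsum_eq (Equiv.subRight _)`), then
`tsum_of_nat_of_neg_add_one` as in `HZ89.hur_eq` (LibHZ89/Main.lean): the `i ≥ 0` are
`∑' i : ℕ, 1 / |u - 2 q n + q i| ^ 3 = ps + ∑' m, (i = 3 n + 1 + m)` (`Summable.sum_add_tsum_nat_add`), with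
`u - 2 q n + q (3 n + 1 + m) = u + q (n + 1 + m) > 0`; the `i = -(m + 1)`: `u - 2 q n - q (m + 1) =
-(q (2 n + 1 + m) - u) < 0`.
`SS_hur`: `u + q t = q (t + u / q)`, `tsum_mul_left`.  `SS_per`: `t ↦ t + 1` (`Equiv.tsum_eq (Equiv.addRight 1)`),
induction on `l`.
-/

namespace HZ7

open Finset HZ89 Polynomial

private theorem c3_summable {f : ℕ → ℝ} (h0 : ∀ m, 0 ≤ f m)
    (h : ∀ m : ℕ, f m ≤ 1 / ((m : ℝ) + 1) ^ 3) : Summable f := by
  refine Summable.of_nonneg_of_le h0 h ?_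
  have := (summable_nat_add_iff 1).2 (Real.summable_one_div_nat_pow.2 (by norm_num : 1 < 3))
  simpa using this

theorem SS_split {q n : ℕ} (hq : 1 ≤ q) (hn : 1 ≤ n) {u : ℝ} (h0 : 0 ≤ u) (h1 : u < q * (n + 1)) :
    SS q u = ps q n u + (∑' m : ℕ, 1 / (u + q * (n + 1 + m)) ^ 3 +
      ∑' m : ℕ, 1 / (q * (2 * n + 1 + m) - u) ^ 3) := by
  have hqr : (1 : ℝ) ≤ q := by exact_mod_cast hq
  have hnr : (1 : ℝ) ≤ n := by exact_mod_cast hn
  have hpos1 : ∀ m : ℕ, (m : ℝ) + 1 ≤ u + q * (n + 1 + m) := by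
    intro m
    have hm : (0 : ℝ) ≤ m := Nat.cast_nonneg m
    nlinarith
  have hpos2 : ∀ m : ℕ, (m : ℝ) + 1 ≤ q * (2 * n + 1 + m) - u := by
    intro m
    have hm : (0 : ℝ) ≤ m := Nat.cast_nonneg m
    nlinarith
  have hg1 : ∀ m : ℕ, 0 < (m : ℝ) + 1 := fun m => by positivity
  have e1 : ∀ m : ℕ, 1 / |u - 2 * q * n + q * (((m + (3 * n + 1) : ℕ) : ℤ) : ℝ)| ^ 3 =
      1 / (u + q * (n + 1 + m)) ^ 3 := by
    intro m
    have h2 : u - 2 * q * n + q * (((m + (3 * n + 1) : ℕ) : ℤ) : ℝ) = u + q * (n + 1 + m) := by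
      push_cast
      ring
    rw [h2, abs_of_pos (lt_of_lt_of_le (hg1 m) (hpos1 m))]
  have e2 : ∀ m : ℕ, 1 / |u - 2 * q * n + q * ((-((m : ℤ) + 1) : ℤ) : ℝ)| ^ 3 =
      1 / (q * (2 * n + 1 + m) - u) ^ 3 := by
    intro m
    have h2 : u - 2 * q * n + q * ((-((m : ℤ) + 1) : ℤ) : ℝ) = -(q * (2 * n + 1 + m) - u) := by
      push_cast
      ring
    rw [h2, abs_neg, abs_of_pos (lt_of_lt_of_le (hg1 m) (hpos2 m))]
  have s1 : Summable fun m : ℕ => 1 / (u + q * (n + 1 + m)) ^ 3 := by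
    refine c3_summable (fun m => ?_) (fun m => ?_)
    · have := lt_of_lt_of_le (hg1 m) (hpos1 m)
      positivity
    · exact one_div_le_one_div_of_le (pow_pos (hg1 m) 3)
        (pow_le_pow_left₀ (hg1 m).le (hpos1 m) 3)
  have s2 : Summable fun m : ℕ => 1 / (q * (2 * n + 1 + m) - u) ^ 3 := by
    refine c3_summable (fun m => ?_) (fun m => ?_)
    · have := lt_of_lt_of_le (hg1 m) (hpos2 m)
      positivity
    · exact one_div_le_one_div_of_le (pow_pos (hg1 m) 3)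
        (pow_le_pow_left₀ (hg1 m).le (hpos2 m) 3)
  have s3 : Summable fun m : ℕ => 1 / |u - 2 * q * n + q * ((m : ℤ) : ℝ)| ^ 3 := by
    rw [← summable_nat_add_iff (3 * n + 1)]
    exact s1.congr fun m => (e1 m).symm
  have s4 : Summable fun m : ℕ => 1 / |u - 2 * q * n + q * ((-((m : ℤ) + 1) : ℤ) : ℝ)| ^ 3 :=
    s2.congr fun m => (e2 m).symm
  have h3 : SS q u = ∑' i : ℤ, 1 / |u - 2 * q * n + q * (i : ℝ)| ^ 3 := by
    unfold SS
    rw [← (Equiv.subRight (2 * (n : ℤ))).tsum_eq]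
    refine tsum_congr fun i => ?_
    have h4 : u + (q : ℝ) * (((Equiv.subRight (2 * (n : ℤ))) i : ℤ) : ℝ) =
        u - 2 * q * n + q * (i : ℝ) := by
      simp only [Equiv.subRight_apply]
      push_cast
      ring
    rw [h4]
  rw [h3, tsum_of_nat_of_neg_add_one (f := fun i : ℤ => 1 / |u - 2 * q * n + q * (i : ℝ)| ^ 3)
    s3 s4, ← s3.sum_add_tsum_nat_add (3 * n + 1), tsum_congr e1, tsum_congr e2, add_assoc]
  unfold ps
  simp only [Int.cast_natCast]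

theorem SS_hur {q : ℕ} (hq : 1 ≤ q) (u : ℝ) : SS q u = 1 / (q : ℝ) ^ 3 * hur (u / q) := by
  have hq0 : (0 : ℝ) < q := by exact_mod_cast hq
  unfold SS hur
  rw [← tsum_mul_left]
  refine tsum_congr fun t => ?_
  have h1 : u + (q : ℝ) * t = q * (t + u / q) := by
    field_simp
    ring
  rw [h1, abs_mul, mul_pow, abs_of_pos hq0, one_div_mul_one_div]

theorem SS_per {q : ℕ} (u : ℝ) (l : ℕ) : SS q (u + q * l) = SS q u := by
  induction l with
  | zero => simp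
  | succ l ih =>
    rw [← ih]
    unfold SS
    rw [← (Equiv.addRight (1 : ℤ)).tsum_eq (fun t : ℤ => 1 / |u + (q : ℝ) * (l : ℝ) + q * t| ^ 3)]
    refine tsum_congr fun t => ?_
    simp only [Equiv.coe_addRight]
    push_cast
    have h1 : u + (q : ℝ) * ((l : ℝ) + 1) + q * t = u + q * l + q * (t + 1) := by ring
    rw [h1]

end HZ7
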