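import Pool.Agent.LibHZ7.C2
import Pool.Agent.LibHZ7.C3

/-!
# Row C4: polynomial approximation of the tails (MEDIUM)

Plan: `h = q n / 2 > 0`, `v = j - q n / 2`, `|v| ≤ h`.  First tail: `j + c + q (n + 1 + m) = a m + v` with
`a m = c + q (n + 1 + m) + q n / 2 ≥ 3 h`; second tail: `q (2 n + 1 + m) - (j + c) = a' m + (-v)` with
`a' m = q (2 n + 1 + m) - c - q n / 2 ≥ 3 h` (`c < q`).  Both `a m, a' m ≥ m + 1`
(`q (n + 1 + m) ≥ m + 1`; `q (2 n + 1 + m) - c - q n / 2 ≥ q (m + 3 n / 2) ≥ m + 1`), so they are summable with sum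
`≤ ∑ 1 / (m + 1) ^ 3 ≤ ∑ 1 / (m + 1) ^ 2 = π² / 6 ≤ 2` (`HZ89.d2_hasSum`, `HZ89.d2_pi` in LibHZ89/D2).
`sum_taylor` with `A = 2` twice gives `G₁`, `G₂`; `G = G₁.comp (X - C (q n / 2)) + G₂.comp (C (q n / 2) - X)`
(`natDegree_comp`, degree one), error `6 + 6 = 12`.
-/

namespace HZ7

open Finset HZ89 Polynomial

private theorem c4_sum {a : ℕ → ℝ} (ha : ∀ m : ℕ, (m : ℝ) + 1 ≤ a m) :
    (Summable fun m => 1 / a m ^ 3) ∧ ∑' m, 1 / a m ^ 3 ≤ 2 := by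
  have h1 : ∀ m : ℕ, 1 / a m ^ 3 ≤ 1 / ((m : ℝ) + 1) ^ 2 := by
    intro m
    have h2 : (1 : ℝ) ≤ (m : ℝ) + 1 := by
      have : (0 : ℝ) ≤ m := Nat.cast_nonneg m
      linarith
    have h3 := ha m
    apply one_div_le_one_div_of_le (by positivity)
    calc ((m : ℝ) + 1) ^ 2 ≤ ((m : ℝ) + 1) ^ 3 := pow_le_pow_right₀ h2 (by norm_num)
      _ ≤ a m ^ 3 := pow_le_pow_left₀ (by linarith) h3 3
  have h0 : ∀ m : ℕ, 0 ≤ 1 / a m ^ 3 := by
    intro m
    have h3 := ha m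
    have h4 : (0 : ℝ) ≤ m := Nat.cast_nonneg m
    have h5 : 0 < a m := by linarith
    positivity
  have hs : Summable fun m => 1 / a m ^ 3 := Summable.of_nonneg_of_le h0 h1 d2_hasSum.summable
  exact ⟨hs, (hs.tsum_le_tsum h1 d2_hasSum.summable).trans (d2_hasSum.tsum_eq.le.trans d2_pi)⟩

private theorem c4_deg {G L : ℝ[X]} {D : ℕ} (hG : G.natDegree < D) (hL : L.natDegree ≤ 1) :
    (G.comp L).natDegree < D := by
  refine lt_of_le_of_lt natDegree_comp_le ?_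
  calc G.natDegree * L.natDegree ≤ G.natDegree * 1 := Nat.mul_le_mul_left _ hL
    _ = G.natDegree := mul_one _
    _ < D := hG

theorem tail_poly {q n c D : ℕ} (hq : 1 ≤ q) (hn : 1 ≤ n) (hc : c < q) (hD : 1 ≤ D) :
    ∃ G : ℝ[X], G.natDegree < D ∧ ∀ j : ℕ, j < q * n →
      |SS q ((j : ℝ) + c) - ps q n ((j : ℝ) + c) - G.eval (j : ℝ)| ≤
        12 * ((D : ℝ) + 2) ^ 2 * (1 / 3) ^ D := by
  have hq' : (1 : ℝ) ≤ q := by exact_mod_cast hq
  have hn' : (1 : ℝ) ≤ n := by exact_mod_cast hn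
  have hc' : (c : ℝ) < q := by exact_mod_cast hc
  have hc0 : (0 : ℝ) ≤ c := Nat.cast_nonneg c
  have hqn : (q : ℝ) ≤ q * n := by nlinarith
  set h : ℝ := q * n / 2 with hh
  have hh0 : 0 < h := by
    rw [hh]
    positivity
  have hqm : ∀ m : ℕ, (m : ℝ) ≤ q * m := fun m => by
    have : (0 : ℝ) ≤ m := Nat.cast_nonneg m
    nlinarith
  obtain ⟨s1, t1⟩ := c4_sum (a := fun m : ℕ => (c : ℝ) + q * (n + 1 + m) + h) (fun m => by
    have h1 := hqm m
    show (m : ℝ) + 1 ≤ (c : ℝ) + q * (n + 1 + m) + h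
    nlinarith)
  obtain ⟨s2, t2⟩ := c4_sum (a := fun m : ℕ => (q : ℝ) * (2 * n + 1 + m) - c - h) (fun m => by
    have h1 := hqm m
    show (m : ℝ) + 1 ≤ (q : ℝ) * (2 * n + 1 + m) - c - h
    have h2 : h = q * n / 2 := hh
    nlinarith)
  obtain ⟨G1, d1, e1⟩ := sum_taylor hh0 (fun m => by
    have h1 := hqm m
    have h2 : h = q * n / 2 := hh
    have h3 : (0 : ℝ) ≤ m := Nat.cast_nonneg m
    show 3 * h ≤ (c : ℝ) + q * (n + 1 + m) + h
    nlinarith) s1 t1 hD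
  obtain ⟨G2, d2, e2⟩ := sum_taylor hh0 (fun m => by
    have h1 := hqm m
    have h2 : h = q * n / 2 := hh
    have h3 : (0 : ℝ) ≤ m := Nat.cast_nonneg m
    show 3 * h ≤ (q : ℝ) * (2 * n + 1 + m) - c - h
    nlinarith) s2 t2 hD
  refine ⟨G1.comp (X - C h) + G2.comp (C h - X), ?_, fun j hj => ?_⟩
  · refine lt_of_le_of_lt (natDegree_add_le _ _) (max_lt (c4_deg d1 ?_) (c4_deg d2 ?_))
    · compute_degree
    · compute_degree
  · have hj' : (j : ℝ) < q * n := by exact_mod_cast hj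
    have hj0 : (0 : ℝ) ≤ j := Nat.cast_nonneg j
    have hv : |(j : ℝ) - h| ≤ h := by
      rw [abs_le]
      constructor <;> linarith
    have hv' : |h - (j : ℝ)| ≤ h := by
      rw [abs_sub_comm]
      exact hv
    have h1 := e1 _ hv
    have h2 := e2 _ hv'
    rw [SS_split hq hn (u := (j : ℝ) + c) (by positivity) (by nlinarith)]
    simp only [eval_add, eval_comp, eval_sub, eval_X, eval_C]
    have f1 : (fun m : ℕ => 1 / ((c : ℝ) + q * (n + 1 + m) + h + ((j : ℝ) - h)) ^ 3) =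
        fun m : ℕ => 1 / ((j : ℝ) + c + q * (n + 1 + m)) ^ 3 := by
      funext m
      congr 2
      ring
    have f2 : (fun m : ℕ => 1 / ((q : ℝ) * (2 * n + 1 + m) - c - h + (h - (j : ℝ))) ^ 3) =
        fun m : ℕ => 1 / ((q : ℝ) * (2 * n + 1 + m) - ((j : ℝ) + c)) ^ 3 := by
      funext m
      congr 2
      ring
    rw [f1] at h1
    rw [f2] at h2
    set A := ∑' m : ℕ, 1 / ((j : ℝ) + c + q * (n + 1 + m)) ^ 3
    set B := ∑' m : ℕ, 1 / ((q : ℝ) * (2 * n + 1 + m) - ((j : ℝ) + c)) ^ 3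
    have h3 : ps q n ((j : ℝ) + c) + (A + B) - ps q n ((j : ℝ) + c) -
        (eval ((j : ℝ) - h) G1 + eval (h - (j : ℝ)) G2) =
        (A - eval ((j : ℝ) - h) G1) + (B - eval (h - (j : ℝ)) G2) := by ring
    rw [h3]
    refine (abs_add_le _ _).trans ((add_le_add h1 h2).trans (le_of_eq ?_))
    ring

end HZ7
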