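import Pool.Agent.LibHZ7.D0

/-!
# Row D1: polynomials in the span of the rows (SHORT)

Plan: `exists_choose`; the function is a linear combination of the functions `rowA (Sum.inl k)`,
`rowA (Sum.inr (i, c, k))`: `Submodule.sum_mem`, `Submodule.smul_mem`, `Submodule.subset_span`.
-/

namespace HZ7

open Finset HZ89 Polynomial

variable {q n s d K : ℕ} {Cs I : Finset ℕ} {b : ℕ → Fin s → ℚ}

theorem span_i {p : ℝ[X]} (hp : p.natDegree < d) :
    (fun j : P q n I => p.eval ((j : ℕ) : ℝ)) ∈ rsp q n s Cs d K b I := by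
  obtain ⟨a, ha⟩ := exists_choose hp
  have h1 : (fun j : P q n I => p.eval ((j : ℕ) : ℝ)) =
      ∑ k : Fin d, a k • (fun j : P q n I => rowA q s Cs d K b (Sum.inl k) j) := by
    funext j
    rw [ha, Finset.sum_apply]
    exact Finset.sum_congr rfl fun k _ => rfl
  rw [h1]
  exact Submodule.sum_mem _ fun k _ =>
    Submodule.smul_mem _ _ (Submodule.subset_span ⟨Sum.inl k, rfl⟩)

theorem span_iii {p : ℝ[X]} (hp : p.natDegree < K) (i : Fin s) {c : ℕ} (hc : c ∈ Cs) :
    (fun j : P q n I => (b (((j : ℕ) + c) % q) i : ℝ) * p.eval ((j : ℕ) : ℝ)) ∈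
      rsp q n s Cs d K b I := by
  obtain ⟨a, ha⟩ := exists_choose hp
  have h1 : (fun j : P q n I => (b (((j : ℕ) + c) % q) i : ℝ) * p.eval ((j : ℕ) : ℝ)) =
      ∑ k : Fin K, a k •
        (fun j : P q n I => rowA q s Cs d K b (Sum.inr (i, ⟨c, hc⟩, k)) j) := by
    funext j
    rw [ha, Finset.sum_apply, Finset.mul_sum]
    refine Finset.sum_congr rfl fun k _ => ?_
    show _ = a k * ((b (((j : ℕ) + c) % q) i : ℝ) * ((j : ℕ).choose k : ℝ))
    ring
  rw [h1]
  exact Submodule.sum_mem _ fun k _ =>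
    Submodule.smul_mem _ _ (Submodule.subset_span ⟨Sum.inr (i, ⟨c, hc⟩, k), rfl⟩)

end HZ7
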