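import Pool.Agent.LibHZ7.B1
import Pool.Agent.LibHZ7.C4
import Pool.Agent.LibHZ7.D1

/-!
# Row D3: the rows (iv) are small modulo the others (MEDIUM)

Let `p = (c, k)`, `w = WP * (polynomial of C(j, k))` (`choose_poly`), `natDegree w ≤ 3 (3 n + 1) + k < K`
(`W_natDegree`, `hK`).  `S(j + c) = S(j % q + c)` (`SS_per`, `j = j % q + q (j / q)`), and
`(j + c) % q = (j % q + c) % q`.  So `b₀ - ps = (SS - ps) - ∑ b ξ`, and with `G` from `tail_poly`, `D = d - K ≥ 1`: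
`v' j = (SS q (j + c) - ps q n (j + c) - G(j)) * w(j)`;
`v' - rowB = ∑ i, ξ i * (b i * w) - G * w`: `span_iii` and `span_i` (`natDegree (G * w) < D + K ≤ d`; precisely
`natDegree G ≤ D - 1`, `natDegree w ≤ K - 1`).  The size: `tail_poly`.
-/

namespace HZ7

open Finset HZ89 Polynomial

theorem rows_small {q n s d K k : ℕ} {Cs I : Finset ℕ} (hq : 1 ≤ q) (hn : 1 ≤ n)
    (hC : ∀ c ∈ Cs, c < q) (hI : ∀ x ∈ I, x < q) (hK : k + 3 * (3 * n + 1) ≤ K) (hKd : K < d)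
    (ξ : Fin s → ℝ) (b₀ : ℕ → ℚ) (b : ℕ → Fin s → ℚ)
    (hS : ∀ x ∈ I, ∀ c ∈ Cs, SS q ((x : ℝ) + c) =
      (b₀ ((x + c) % q) : ℝ) + ∑ i, (b ((x + c) % q) i : ℝ) * ξ i) (p : RB Cs k) :
    ∃ v' : P q n I → ℝ, (v' - fun j : P q n I => rowB q n Cs k b₀ p j) ∈ rsp q n s Cs d K b I ∧
      ∀ j : P q n I, |v' j| ≤ 12 * (((d - K : ℕ) : ℝ) + 2) ^ 2 * (1 / 3) ^ (d - K) *
        (|(WP q n p.1).eval ((j : ℕ) : ℝ)| * ((j : ℕ).choose p.2 : ℝ)) := by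
  obtain ⟨c, l⟩ := p
  obtain ⟨pk, hpk, hpk'⟩ := choose_poly (l : ℕ)
  have hl := l.2
  have hD : 1 ≤ d - K := by omega
  obtain ⟨G, hG, hG'⟩ := tail_poly (c := (c : ℕ)) hq hn (hC c c.2) hD
  have hw : (WP q n c * pk).natDegree < K := by
    have h1 : (WP q n c * pk).natDegree ≤ (WP q n c).natDegree + pk.natDegree :=
      natDegree_mul_le
    have h2 := W_natDegree q n (c : ℕ)
    omega
  have hGw : (G * (WP q n c * pk)).natDegree < d := by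
    have h1 : (G * (WP q n c * pk)).natDegree ≤ G.natDegree + (WP q n c * pk).natDegree :=
      natDegree_mul_le
    omega
  have hwe : ∀ j : ℕ, (WP q n c * pk).eval (j : ℝ) =
      (WP q n c).eval (j : ℝ) * (j.choose l : ℝ) := by
    intro j
    rw [eval_mul, hpk']
  refine ⟨fun j => (SS q (((j : ℕ) : ℝ) + (c : ℕ)) - ps q n (((j : ℕ) : ℝ) + (c : ℕ)) -
    G.eval ((j : ℕ) : ℝ)) * (WP q n c * pk).eval ((j : ℕ) : ℝ), ?_, ?_⟩
  · have h1 : ((fun j : P q n I => (SS q (((j : ℕ) : ℝ) + (c : ℕ)) -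
        ps q n (((j : ℕ) : ℝ) + (c : ℕ)) - G.eval ((j : ℕ) : ℝ)) *
          (WP q n c * pk).eval ((j : ℕ) : ℝ)) -
        fun j : P q n I => rowB q n Cs k b₀ (c, l) j) =
        (∑ i, ξ i • fun j : P q n I => (b (((j : ℕ) + (c : ℕ)) % q) i : ℝ) *
          (WP q n c * pk).eval ((j : ℕ) : ℝ)) -
        fun j : P q n I => (G * (WP q n c * pk)).eval ((j : ℕ) : ℝ) := by
      funext j
      obtain ⟨-, hj2⟩ : (j : ℕ) ∈ range (q * n) ∧ (j : ℕ) % q ∈ I := mem_filter.1 j.2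
      have h2 : SS q (((j : ℕ) : ℝ) + (c : ℕ)) = SS q ((((j : ℕ) % q : ℕ) : ℝ) + (c : ℕ)) := by
        rw [← SS_per (q := q) ((((j : ℕ) % q : ℕ) : ℝ) + (c : ℕ)) ((j : ℕ) / q)]
        congr 1
        have h3 : ((j : ℕ) : ℝ) = (((j : ℕ) % q : ℕ) : ℝ) + q * (((j : ℕ) / q : ℕ) : ℝ) := by
          exact_mod_cast (Nat.mod_add_div (j : ℕ) q).symm
        linear_combination h3
      have h3 := hS _ hj2 c c.2
      rw [Nat.mod_add_mod] at h3
      simp only [Pi.sub_apply, Finset.sum_apply, Pi.smul_apply, smul_eq_mul]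
      rw [h2, h3, eval_mul (p := G), hwe]
      simp only [rowB]
      rw [← sub_eq_zero]
      have h4 : ∑ i, ξ i * ((b (((j : ℕ) + (c : ℕ)) % q) i : ℝ) *
          ((WP q n c).eval ((j : ℕ) : ℝ) * ((j : ℕ).choose l : ℝ))) =
          (∑ i, (b (((j : ℕ) + (c : ℕ)) % q) i : ℝ) * ξ i) *
          ((WP q n c).eval ((j : ℕ) : ℝ) * ((j : ℕ).choose l : ℝ)) := by
        rw [sum_mul]
        exact sum_congr rfl fun i _ => by ring
      rw [h4]
      ring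
    rw [h1]
    exact Submodule.sub_mem _ (Submodule.sum_mem _ fun i _ => Submodule.smul_mem _ _
      (span_iii hw i c.2)) (span_i hGw)
  · intro j
    obtain ⟨hj1, -⟩ : (j : ℕ) ∈ range (q * n) ∧ (j : ℕ) % q ∈ I := mem_filter.1 j.2
    show |(SS q (((j : ℕ) : ℝ) + (c : ℕ)) - ps q n (((j : ℕ) : ℝ) + (c : ℕ)) -
      G.eval ((j : ℕ) : ℝ)) * (WP q n c * pk).eval ((j : ℕ) : ℝ)| ≤
        12 * (((d - K : ℕ) : ℝ) + 2) ^ 2 * (1 / 3) ^ (d - K) *
        (|(WP q n c).eval ((j : ℕ) : ℝ)| * ((j : ℕ).choose l : ℝ))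
    rw [hwe, abs_mul, abs_mul, Nat.abs_cast]
    exact mul_le_mul_of_nonneg_right (hG' j (mem_range.1 hj1)) (by positivity)

end HZ7
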