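import Pool.Agent.LibHZ7.Defs

/-!
# Row D0: binomial expansion of a polynomial (SHORT/MEDIUM, ONLY MATHLIB)

Plan: Newton's formula `shift_eq_sum_fwdDiff_iter` / `Polynomial`-version (Mathlib.Algebra.Group.ForwardDiff):
`p(j) = ∑_k C(j, k) Δ^k p (0)`, `Δ^k p = 0` for `k ≥ d`.  Or by induction on `d`: subtract
`leading coefficient * (d-1)! * C(X, d-1)` (`descPochhammer`).
`choose_poly`: `C(j, k)` is the value at `j` of a polynomial of degree `k`: `descPochhammer ℝ k / k!`
(`descPochhammer_eval_eq_descFactorial`, `Nat.descFactorial_eq_factorial_mul_choose`).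
-/

namespace HZ7

open Finset HZ89 Polynomial

theorem exists_choose {p : ℝ[X]} {d : ℕ} (hp : p.natDegree < d) :
    ∃ a : Fin d → ℝ, ∀ j : ℕ, p.eval (j : ℝ) = ∑ k : Fin d, a k * (j.choose k : ℝ) := by
  refine ⟨fun k => ((fwdDiff (1 : ℝ))^[(k : ℕ)] (fun x => p.eval x)) 0, fun j => ?_⟩
  have h1 := shift_eq_sum_fwdDiff_iter (1 : ℝ) (fun x => p.eval x) j 0
  rw [zero_add, nsmul_eq_mul, mul_one] at h1
  rw [Fin.sum_univ_eq_sum_range
    (fun k : ℕ => ((fwdDiff (1 : ℝ))^[k] (fun x => p.eval x)) 0 * (j.choose k : ℝ))]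
  refine h1.trans ?_
  have h2 : ∑ k ∈ range (j + 1), j.choose k • ((fwdDiff (1 : ℝ))^[k] (fun x => p.eval x)) 0 =
      ∑ k ∈ range (j + 1 + d), ((fwdDiff (1 : ℝ))^[k] (fun x => p.eval x)) 0 * (j.choose k : ℝ) := by
    rw [← Finset.sum_subset (Finset.range_subset_range.2 (Nat.le_add_right (j + 1) d))]
    · refine Finset.sum_congr rfl fun k _ => ?_
      rw [nsmul_eq_mul, mul_comm]
    · intro k _ hk
      rw [Finset.mem_range, not_lt] at hk
      rw [Nat.choose_eq_zero_of_lt (by omega), Nat.cast_zero, mul_zero]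
  have h3 : ∑ k ∈ range d, ((fwdDiff (1 : ℝ))^[k] (fun x => p.eval x)) 0 * (j.choose k : ℝ) =
      ∑ k ∈ range (j + 1 + d), ((fwdDiff (1 : ℝ))^[k] (fun x => p.eval x)) 0 *
        (j.choose k : ℝ) := by
    refine Finset.sum_subset (Finset.range_subset_range.2 (Nat.le_add_left d (j + 1))) ?_
    intro k _ hk
    rw [Finset.mem_range, not_lt] at hk
    have h4 := Polynomial.fwdDiff_iter_eq_zero_of_degree_lt (P := p) (n := k) (by omega)
    have h5 : ((fwdDiff (1 : ℝ))^[k] (fun x => p.eval x)) 0 = 0 := congrFun h4 0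
    rw [h5, zero_mul]
  rw [h2, h3]

theorem choose_poly (k : ℕ) : ∃ p : ℝ[X], p.natDegree = k ∧
    ∀ j : ℕ, p.eval (j : ℝ) = (j.choose k : ℝ) := by
  refine ⟨C (1 / (k.factorial : ℝ)) * descPochhammer ℝ k, ?_, fun j => ?_⟩
  · rw [natDegree_C_mul (by positivity), descPochhammer_natDegree]
  · rw [eval_mul, eval_C, Nat.cast_choose_eq_descPochhammer_div]
    ring

/-- a combination of the `C(j, k)` as a polynomial; zero only if the coefficients are -/
theorem choose_comb {K : ℕ} (hK : 1 ≤ K) (a : Fin K → ℝ) : ∃ p : ℝ[X], p.natDegree < K ∧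
    (∀ j : ℕ, p.eval (j : ℝ) = ∑ k : Fin K, a k * (j.choose k : ℝ)) ∧ (p = 0 → a = 0) := by
  choose q hq hq' using choose_poly
  have hev : ∀ j : ℕ, (∑ k : Fin K, C (a k) * q k).eval (j : ℝ) =
      ∑ k : Fin K, a k * (j.choose k : ℝ) := by
    intro j
    rw [eval_finset_sum]
    refine Finset.sum_congr rfl fun k _ => ?_
    rw [eval_mul, eval_C, hq']
  refine ⟨∑ k : Fin K, C (a k) * q k, ?_, hev, ?_⟩
  · have h1 : (∑ k : Fin K, C (a k) * q k).natDegree ≤ K - 1 := by
      refine natDegree_sum_le_of_forall_le _ _ fun k _ => ?_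
      refine (natDegree_C_mul_le _ _).trans ?_
      rw [hq]
      have := k.2
      omega
    omega
  · intro h0
    have h1 : ∀ n : ℕ, ∀ hn : n < K, a ⟨n, hn⟩ = 0 := by
      intro n
      induction n using Nat.strong_induction_on with
      | _ n ih =>
        intro hn
        have h2 := hev n
        rw [h0, eval_zero, Finset.sum_eq_single (⟨n, hn⟩ : Fin K)] at h2
        · simpa using h2.symm
        · intro k _ hk
          rcases lt_trichotomy (k : ℕ) n with h | h | h
          · rw [show a k = a ⟨(k : ℕ), k.2⟩ from rfl, ih k h k.2, zero_mul]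
          · exact absurd (Fin.ext h) hk
          · rw [Nat.choose_eq_zero_of_lt h, Nat.cast_zero, mul_zero]
        · intro h
          exact absurd (Finset.mem_univ _) h
    funext k
    exact h1 k k.2

end HZ7
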