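import Pool.Agent.LibHZ7.E4
import Pool.Agent.LibHZ7.B1
import Pool.Agent.LibHZ7.D0

/-!
# Row E5: the rows (iv) are independent modulo the others (MEDIUM)

By `Submodule.mem_span_range_iff_exists_fun` there is `e : RA → ℝ` with `∑ r, e r • rowA r = ∑ p, v p • rowB p` on `P`.
`choose_comb` gives the polynomials: `F` for `-e ∘ inl` (degree `< d`), `u' c i` for `-e (inr (i, c, ·))` (degree
`< K`), `r c` for `v (c, ·)` (degree `< k`), `u c = WP q n c * r c` (degree `≤ 3 (3 n + 1) + k ≤ K`, `W_natDegree`);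
outside `Cs` they are `0` (`dite`, as in LibHZ3/IND.lean).  `zero7` gives `u c = 0`, `W_ne` gives `r c = 0`, so
`v (c, ·) = 0`.
-/

namespace HZ7

open Finset HZ89 Polynomial

theorem rows_ind {q n s d K k : ℕ} {I Cs : Finset ℕ} (hq : 1 ≤ q) (hn : 1 ≤ n)
    (hC : ∀ c ∈ Cs, c < q) (hI : ∀ x ∈ I, x < q) (hk : 1 ≤ k) (hK : k + 3 * (3 * n + 1) ≤ K)
    (hKd : K < d)
    (hdeg : 6 * Cs.card * (Cs.card * (s + 1) + 1) + d + (Cs.card * (s + 1)) * K +
      I.card * (Cs.card * (s + 1)) < I.card * n)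
    (b₀ : ℕ → ℚ) (b : ℕ → Fin s → ℚ) (v : RB Cs k → ℝ)
    (hv : (∑ p, v p • fun j : P q n I => rowB q n Cs k b₀ p j) ∈ rsp q n s Cs d K b I) :
    v = 0 := by
  classical
  obtain ⟨e, he⟩ := (Submodule.mem_span_range_iff_exists_fun ℝ).1 hv
  have hK1 : 1 ≤ K := by omega
  obtain ⟨F, hF1, hF2, -⟩ := choose_comb (K := d) (by omega) fun κ => -e (Sum.inl κ)
  choose r hr1 hr2 hr3 using fun c : Cs => choose_comb hk fun κ => v (c, κ)
  choose t ht1 ht2 ht3 using fun (c : Cs) (i : Fin s) =>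
    choose_comb hK1 fun κ => -e (Sum.inr (i, c, κ))
  have key := zero7 hq hn hC hI hKd.le hdeg b₀ b F hF1.le
    (fun c => if h : c ∈ Cs then WP q n c * r ⟨c, h⟩ else 0)
    (fun c i => if h : c ∈ Cs then t ⟨c, h⟩ i else 0) (by
      intro c hc
      rw [dif_pos hc]
      have h1 := hr1 ⟨c, hc⟩
      have h2 := W_natDegree q n c
      refine natDegree_mul_le.trans ?_
      omega) (by
      intro c hc i
      rw [dif_pos hc]
      exact (ht1 ⟨c, hc⟩ i).le) (by
      intro j hj
      have h1 := congrFun he ⟨j, hj⟩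
      simp only [Finset.sum_apply, Pi.smul_apply, smul_eq_mul] at h1
      rw [Fintype.sum_sum_type] at h1
      have e0 : F.eval (j : ℝ) = -∑ κ : Fin d, e (Sum.inl κ) *
          rowA q s Cs d K b (Sum.inl κ) j := by
        rw [hF2, ← Finset.sum_neg_distrib]
        refine Finset.sum_congr rfl fun κ _ => ?_
        unfold rowA
        ring
      have e1 : ∑ c ∈ Cs, ((b₀ ((j + c) % q) : ℝ) - ps q n ((j : ℝ) + c)) *
          ((if h : c ∈ Cs then WP q n c * r ⟨c, h⟩ else 0 : ℝ[X])).eval (j : ℝ) =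
          ∑ p : RB Cs k, v p * rowB q n Cs k b₀ p j := by
        rw [← Finset.sum_coe_sort Cs, Fintype.sum_prod_type]
        refine Finset.sum_congr rfl fun c _ => ?_
        rw [dif_pos c.2, eval_mul, hr2, Finset.mul_sum, Finset.mul_sum]
        refine Finset.sum_congr rfl fun κ _ => ?_
        unfold rowB
        ring
      have e2 : ∑ c ∈ Cs, ∑ i, (b ((j + c) % q) i : ℝ) *
          ((if h : c ∈ Cs then t ⟨c, h⟩ i else 0 : ℝ[X])).eval (j : ℝ) =
          -∑ p : Fin s × Cs × Fin K, e (Sum.inr p) * rowA q s Cs d K b (Sum.inr p) j := by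
        rw [← Finset.sum_coe_sort Cs, Finset.sum_comm, Fintype.sum_prod_type,
          ← Finset.sum_neg_distrib]
        refine Finset.sum_congr rfl fun i _ => ?_
        rw [Fintype.sum_prod_type, ← Finset.sum_neg_distrib]
        refine Finset.sum_congr rfl fun c _ => ?_
        rw [dif_pos c.2, ht2, Finset.mul_sum, ← Finset.sum_neg_distrib]
        refine Finset.sum_congr rfl fun κ _ => ?_
        unfold rowA
        ring
      rw [e0, e1, e2, ← h1]
      ring)
  funext p
  obtain ⟨c, κ⟩ := p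
  have h1 := key c c.2
  rw [dif_pos c.2, mul_eq_zero] at h1
  have h2 := hr3 c (h1.resolve_left (W_ne hq))
  exact congrFun h2 κ

end HZ7
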