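import Pool.Agent.LibHZ7.A2
import Pool.Agent.LibHZ7.D3
import Pool.Agent.LibHZ7.E5

/-!
# The contradiction (assembly, helper5)
-/

namespace HZ7

open Finset HZ89 Polynomial

theorem core_sum_lin (d : ℕ) (A L : ℝ) (hL : 0 ≤ L) :
    ∑ k : Fin d, (A + ((k : ℕ) : ℝ) * L) ≤ d * A + (d : ℝ) ^ 2 / 2 * L := by
  rw [Fin.sum_univ_eq_sum_range (fun k : ℕ => A + (k : ℝ) * L) d, sum_add_distrib, ← sum_mul,
    sum_const, card_range, nsmul_eq_mul]
  have h1 := Finset.sum_range_id_mul_two d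
  have h2 : (∑ i ∈ range d, (i : ℝ)) * 2 = d * (d - 1 : ℕ) := by
    have := congrArg (fun x : ℕ => (x : ℝ)) h1
    push_cast at this
    exact_mod_cast this
  have h3 : ((d - 1 : ℕ) : ℝ) ≤ d := by exact_mod_cast Nat.sub_le d 1
  have h4 : (∑ i ∈ range d, (i : ℝ)) ≤ (d : ℝ) ^ 2 / 2 := by
    have hd : (0 : ℝ) ≤ d := Nat.cast_nonneg d
    nlinarith
  have := mul_le_mul_of_nonneg_right h4 hL
  linarith

/-- the bound for the multiplier -/
noncomputable def Wm (q n : ℕ) : ℝ :=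
  ((q : ℝ) ^ (2 * (3 * n + 1)) * 2 ^ (8 * (3 * n + 1)) * Real.exp (3 * n + 1)) ^ 3

theorem Wm_pos {q n : ℕ} (hq : 1 ≤ q) : 0 < Wm q n := by
  have hqr : (0 : ℝ) < q := by exact_mod_cast hq
  unfold Wm
  positivity

/-- the sizes of the rows (i), (iii) -/
noncomputable def UU (q n s : ℕ) (Cs : Finset ℕ) (d K : ℕ) (B : ℝ) : RA s Cs d K → ℝ
  | Sum.inl k => Real.exp n * (q : ℝ) ^ (k : ℕ)
  | Sum.inr (_, _, k) => B * (Real.exp n * (q : ℝ) ^ (k : ℕ))

/-- the sizes of the rows (iv) -/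
noncomputable def EE (q n : ℕ) (Cs : Finset ℕ) (k N : ℕ) (p : RB Cs k) : ℝ :=
  12 * ((N : ℝ) + 2) ^ 2 * (1 / 3) ^ N * (Wm q n * (Real.exp n * (q : ℝ) ^ (p.2 : ℕ)))

theorem det7 {q n s d K k : ℕ} {I Cs : Finset ℕ} (hq : 1 ≤ q) (hn : 1 ≤ n)
    (hC : ∀ c ∈ Cs, c < q) (hI : ∀ x ∈ I, x < q) (hk : 1 ≤ k) (hK : k + 3 * (3 * n + 1) ≤ K)
    (hKd : K < d)
    (hdeg : 6 * Cs.card * (Cs.card * (s + 1) + 1) + d + (Cs.card * (s + 1)) * K +
      I.card * (Cs.card * (s + 1)) < I.card * n)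
    (ξ : Fin s → ℝ) (b₀ : ℕ → ℚ) (b : ℕ → Fin s → ℚ)
    (hS : ∀ x ∈ I, ∀ c ∈ Cs, SS q ((x : ℝ) + c) =
      (b₀ ((x + c) % q) : ℝ) + ∑ i, (b ((x + c) % q) i : ℝ) * ξ i)
    {D₀ : ℕ} (hD₀ : 1 ≤ D₀) {B : ℝ} (hB : 1 ≤ B)
    (h0 : ∀ y < q, ∃ z : ℤ, (D₀ : ℝ) * (b₀ y : ℝ) = z)
    (h1 : ∀ y < q, ∀ i, ∃ z : ℤ, (D₀ : ℝ) * (b y i : ℝ) = z)
    (h2 : ∀ y < q, ∀ i, |(b y i : ℝ)| ≤ B) :
    1 ≤ ((D₀ : ℝ) * (1 : ℕ)) ^ (Fintype.card (RA s Cs d K) + Fintype.card (RB Cs k)) *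
      (Fintype.card (RA s Cs d K) + Fintype.card (RB Cs k)).factorial *
      (∏ a, UU q n s Cs d K B a) * ∏ p, EE q n Cs k (d - K) p := by
  classical
  have hqr : (1 : ℝ) ≤ q := by exact_mod_cast hq
  have hmod : ∀ j c : ℕ, (j + c) % q < q := fun j c => Nat.mod_lt _ (by omega)
  choose v' hv'1 hv'2 using fun p : RB Cs k =>
    rows_small (d := d) (K := K) hq hn hC hI hK hKd ξ b₀ b hS p
  have hint : ∀ x y : ℝ, (∃ z : ℤ, x = z) → (∃ z : ℤ, y = z) → ∃ z : ℤ, x * y = z := by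
    rintro x y ⟨z, rfl⟩ ⟨z', rfl⟩
    exact ⟨z * z', by push_cast; ring⟩
  have hintn : ∀ m : ℕ, ∃ z : ℤ, (m : ℝ) = z := fun m => ⟨m, by simp⟩
  refine HZ3.det_ineq (J := P q n I) (α := RA s Cs d K) (β := RB Cs k)
    (u := fun r j => rowA q s Cs d K b r j) (v := fun p j => rowB q n Cs k b₀ p j) (v' := v')
    (w := fun _ => 1) (D₀ := D₀) (W := 1) (U := UU q n s Cs d K B)
    (ε := EE q n Cs k (d - K)) ?_ ?_ ?_ ?_ hD₀ le_rfl (fun _ => le_rfl) (fun _ => le_rfl) ?_ ?_ ?_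
  · intro c hc
    exact rows_ind hq hn hC hI hk hK hKd hdeg b₀ b c hc
  · intro p
    exact hv'1 p
  · rintro (k | ⟨i, c, k⟩) j
    · simp only [rowA, Nat.cast_one, mul_one]
      exact hint _ _ (hintn _) (hintn _)
    · simp only [rowA, Nat.cast_one, mul_one]
      rw [← mul_assoc]
      exact hint _ _ (h1 _ (hmod _ _) i) (hintn _)
  · rintro ⟨c, k⟩ j
    simp only [rowB, Nat.cast_one, mul_one]
    have e1 : (D₀ : ℝ) * (((b₀ (((j : ℕ) + c) % q) : ℝ) - ps q n (((j : ℕ) : ℝ) + (c : ℕ))) *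
        ((WP q n c).eval ((j : ℕ) : ℝ) * ((j : ℕ).choose k : ℝ))) =
        ((D₀ : ℝ) * (b₀ (((j : ℕ) + c) % q) : ℝ)) * (WP q n c).eval ((j : ℕ) : ℝ) *
          ((j : ℕ).choose k : ℝ) -
        (D₀ : ℝ) * ((WP q n c).eval ((j : ℕ) : ℝ) * ps q n (((j : ℕ) : ℝ) + (c : ℕ))) *
          ((j : ℕ).choose k : ℝ) := by ring
    rw [e1]
    obtain ⟨z1, hz1⟩ := hint _ _ (hint _ _ (h0 _ (hmod j c)) (W_int q n c j)) (hintn ((j : ℕ).choose k))
    obtain ⟨z2, hz2⟩ := hint _ _ (hint _ _ (hintn D₀) (Wps_int q n c j)) (hintn ((j : ℕ).choose k))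
    exact ⟨z1 - z2, by rw [hz1, hz2]; push_cast; ring⟩
  · rintro (k | ⟨i, c, k⟩) j
    · have hj : (j : ℕ) < q * n := mem_range.1 (mem_filter.1 j.2).1
      simp only [rowA, UU]
      rw [abs_of_nonneg (Nat.cast_nonneg _)]
      exact ch_le hj
    · have hj : (j : ℕ) < q * n := mem_range.1 (mem_filter.1 j.2).1
      simp only [rowA, UU]
      rw [abs_mul, Nat.abs_cast]
      exact mul_le_mul (h2 _ (hmod _ _) i) (ch_le hj) (Nat.cast_nonneg _) (by linarith)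
  · have he : (1 : ℝ) ≤ Real.exp n := Real.one_le_exp (Nat.cast_nonneg n)
    have hq1 : ∀ m : ℕ, (1 : ℝ) ≤ (q : ℝ) ^ m := fun m => one_le_pow₀ hqr
    rintro (k | ⟨i, c, k⟩)
    · simp only [UU]
      exact one_le_mul_of_one_le_of_one_le he (hq1 _)
    · simp only [UU]
      exact one_le_mul_of_one_le_of_one_le hB (one_le_mul_of_one_le_of_one_le he (hq1 _))
  · rintro ⟨c, k⟩ j
    have hj : (j : ℕ) < q * n := mem_range.1 (mem_filter.1 j.2).1
    refine (hv'2 (c, k) j).trans ?_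
    simp only [EE]
    refine mul_le_mul_of_nonneg_left ?_ (by positivity)
    exact mul_le_mul (W_le hq (hC c c.2) hj) (ch_le hj) (Nat.cast_nonneg _) (Wm_pos hq).le

theorem log_Wm (q n : ℕ) (hq : 1 ≤ q) : Real.log (Wm q n) =
    (9 * n + 3) * (2 * Real.log q + 1 + 8 * Real.log 2) := by
  have hqr : (0 : ℝ) < q := by exact_mod_cast hq
  unfold Wm
  rw [Real.log_pow, Real.log_mul (by positivity) (by positivity),
    Real.log_mul (by positivity) (by positivity), Real.log_pow, Real.log_pow, Real.log_exp]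
  push_cast
  ring

/-- the inequality for one `n` -/
theorem ineq7 {q n s δ M : ℕ} {Cs : Finset ℕ} (hq : 1 ≤ q) (hn : 1 ≤ n) (hM : Cs.card = M)
    (hM1 : 1 ≤ M) (hδ : 20 < δ) {D₀ : ℕ} (hD₀ : 1 ≤ D₀) {B : ℝ} (hB : 1 ≤ B)
    (h : 1 ≤ ((D₀ : ℝ) * (1 : ℕ)) ^ (Fintype.card (RA s Cs (δ * n) (20 * n)) +
        Fintype.card (RB Cs (10 * n))) *
      (Fintype.card (RA s Cs (δ * n) (20 * n)) + Fintype.card (RB Cs (10 * n))).factorial *
      (∏ a, UU q n s Cs (δ * n) (20 * n) B a) *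
      ∏ p, EE q n Cs (10 * n) (δ * n - 20 * n) p) :
    -((δ : ℝ) + δ ^ 2 * Real.log q / 2 + s * M * (20 + 200 * Real.log q) +
      M * (10 + 50 * Real.log q + 90 * (2 * Real.log q + 1 + 8 * Real.log 2) -
        10 * (δ - 20) * Real.log 3)) * (n : ℝ) ^ 2 ≤
      ((δ + 20 * s * M + 10 * M) * Real.log D₀ + 20 * s * M * Real.log B +
        30 * M * (2 * Real.log q + 1 + 8 * Real.log 2)) * n +
      (δ + 20 * s * M + 10 * M) * n * Real.log ((δ + 20 * s * M + 10 * M) * n) +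
      10 * M * n * Real.log (200 * ((δ : ℝ) * n + 2) ^ 2) := by
  have hqr : (1 : ℝ) ≤ q := by exact_mod_cast hq
  have hq0 : (0 : ℝ) < q := by linarith
  have hnr : (1 : ℝ) ≤ n := by exact_mod_cast hn
  have hMr : (1 : ℝ) ≤ M := by exact_mod_cast hM1
  have hδr : (20 : ℝ) < δ := by exact_mod_cast hδ
  have hL : 0 ≤ Real.log q := Real.log_nonneg hqr
  have hW := Wm_pos (n := n) hq
  have hD0r : (1 : ℝ) ≤ D₀ := by exact_mod_cast hD₀
  set R : ℕ := δ * n + 20 * s * M * n + 10 * M * n with hR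
  have hcard : Fintype.card (RA s Cs (δ * n) (20 * n)) + Fintype.card (RB Cs (10 * n)) = R := by
    simp only [RA, RB, Fintype.card_sum, Fintype.card_prod, Fintype.card_fin, Fintype.card_coe, hM,
      hR]
    ring
  rw [hcard, Nat.cast_one, mul_one] at h
  have hR1 : 1 ≤ R := by
    have : 1 ≤ δ * n := Nat.one_le_iff_ne_zero.2 (mul_ne_zero (by omega) (by omega))
    omega
  have hRr : (R : ℝ) = (δ + 20 * s * M + 10 * M) * n := by
    rw [hR]
    push_cast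
    ring
  have hUpos : ∀ a, 0 < UU q n s Cs (δ * n) (20 * n) B a := by
    rintro (k | ⟨i, c, k⟩)
    · simp only [UU]; positivity
    · simp only [UU]; positivity
  have hEpos : ∀ p, 0 < EE q n Cs (10 * n) (δ * n - 20 * n) p := by
    rintro ⟨c, k⟩
    simp only [EE]; positivity
  have hlog := Real.log_nonneg h
  have hf0 : (0 : ℝ) < (R.factorial : ℝ) := by exact_mod_cast Nat.factorial_pos R
  have hDp : (0 : ℝ) < (D₀ : ℝ) ^ R := by positivity
  have hPU : 0 < ∏ a, UU q n s Cs (δ * n) (20 * n) B a := prod_pos fun a _ => hUpos a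
  have hPE : 0 < ∏ p, EE q n Cs (10 * n) (δ * n - 20 * n) p := prod_pos fun a _ => hEpos a
  rw [Real.log_mul (by positivity) hPE.ne', Real.log_mul (by positivity) hPU.ne',
    Real.log_mul hDp.ne' hf0.ne', Real.log_pow, Real.log_prod (fun a _ => (hUpos a).ne'),
    Real.log_prod (fun a _ => (hEpos a).ne')] at hlog
  -- factorial
  have hfac : Real.log (R.factorial : ℝ) ≤ R * Real.log R := by
    have h1 : (R.factorial : ℝ) ≤ (R : ℝ) ^ R := by exact_mod_cast Nat.factorial_le_pow R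
    rw [← Real.log_pow]
    exact Real.log_le_log hf0 h1
  -- rows (i), (iii)
  have hUsum : ∑ a, Real.log (UU q n s Cs (δ * n) (20 * n) B a) ≤
      ((δ : ℝ) * n) * n + ((δ : ℝ) * n) ^ 2 / 2 * Real.log q +
      s * M * ((20 * (n : ℝ)) * (Real.log B + n) + (20 * (n : ℝ)) ^ 2 / 2 * Real.log q) := by
    rw [Fintype.sum_sum_type, Fintype.sum_prod_type]
    have e1 : ∀ k : Fin (δ * n), Real.log (UU q n s Cs (δ * n) (20 * n) B (Sum.inl k)) =
        (n : ℝ) + ((k : ℕ) : ℝ) * Real.log q := by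
      intro k
      simp only [UU]
      rw [Real.log_mul (by positivity) (by positivity), Real.log_exp, Real.log_pow]
    have e2 : ∀ (i : Fin s) (x : Cs × Fin (20 * n)),
        Real.log (UU q n s Cs (δ * n) (20 * n) B (Sum.inr (i, x))) =
        (Real.log B + n) + ((x.2 : ℕ) : ℝ) * Real.log q := by
      rintro i ⟨c, k⟩
      simp only [UU]
      rw [Real.log_mul (by positivity) (by positivity), Real.log_mul (by positivity) (by positivity),
        Real.log_exp, Real.log_pow]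
      ring
    simp only [e1, e2]
    have g1 := core_sum_lin (δ * n) (n : ℝ) (Real.log q) hL
    have g2 := core_sum_lin (20 * n) (Real.log B + n) (Real.log q) hL
    have g3 : ∑ _i : Fin s, ∑ x : Cs × Fin (20 * n), ((Real.log B + n) + ((x.2 : ℕ) : ℝ) * Real.log q)
        = s * M * ∑ k : Fin (20 * n), ((Real.log B + n) + ((k : ℕ) : ℝ) * Real.log q) := by
      rw [sum_const, card_univ, Fintype.card_fin, nsmul_eq_mul, Fintype.sum_prod_type]
      simp only [sum_const, card_univ, Fintype.card_coe, hM, nsmul_eq_mul]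
      ring
    rw [g3]
    push_cast at g1 g2
    have hsM : (0 : ℝ) ≤ (s : ℝ) * M := by positivity
    have g4 := mul_le_mul_of_nonneg_left g2 hsM
    linarith
  -- rows (iv)
  have hEsum : ∑ p, Real.log (EE q n Cs (10 * n) (δ * n - 20 * n) p) ≤
      M * ((10 * (n : ℝ)) * (Real.log (200 * ((δ : ℝ) * n + 2) ^ 2) -
        ((δ : ℝ) - 20) * n * Real.log 3 + (9 * n + 3) * (2 * Real.log q + 1 + 8 * Real.log 2) + n) +
        (10 * (n : ℝ)) ^ 2 / 2 * Real.log q) := by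
    have hN : ((δ * n - 20 * n : ℕ) : ℝ) = ((δ : ℝ) - 20) * n := by
      rw [Nat.cast_sub (Nat.mul_le_mul_right n hδ.le)]
      push_cast
      ring
    have e1 : ∀ p : Cs × Fin (10 * n), Real.log (EE q n Cs (10 * n) (δ * n - 20 * n) p) =
        (Real.log (12 * (((δ : ℝ) - 20) * n + 2) ^ 2) - ((δ : ℝ) - 20) * n * Real.log 3 +
          (9 * n + 3) * (2 * Real.log q + 1 + 8 * Real.log 2) + n) +
          ((p.2 : ℕ) : ℝ) * Real.log q := by
      rintro ⟨c, k⟩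
      simp only [EE]
      have h12 : (0 : ℝ) < 12 * (((δ * n - 20 * n : ℕ) : ℝ) + 2) ^ 2 := by positivity
      have h13 : (12 : ℝ) * (((δ * n - 20 * n : ℕ) : ℝ) + 2) ^ 2 =
        12 * (((δ : ℝ) - 20) * n + 2) ^ 2 := by rw [hN]
      rw [← h13]
      generalize (12 : ℝ) * (((δ * n - 20 * n : ℕ) : ℝ) + 2) ^ 2 = X at h12
      rw [Real.log_mul (mul_pos h12 (by positivity)).ne' (by positivity),
        Real.log_mul h12.ne' (by positivity),
        Real.log_mul hW.ne' (by positivity), Real.log_mul (by positivity) (by positivity),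
        Real.log_exp, Real.log_pow, Real.log_pow, log_Wm q n hq, one_div, Real.log_inv, hN]
      ring
    simp only [e1]
    have g3 : ∑ x : Cs × Fin (10 * n), ((Real.log (12 * (((δ : ℝ) - 20) * n + 2) ^ 2) -
          ((δ : ℝ) - 20) * n * Real.log 3 +
          (9 * n + 3) * (2 * Real.log q + 1 + 8 * Real.log 2) + n) +
          ((x.2 : ℕ) : ℝ) * Real.log q) =
        M * ∑ k : Fin (10 * n), ((Real.log (12 * (((δ : ℝ) - 20) * n + 2) ^ 2) -
          ((δ : ℝ) - 20) * n * Real.log 3 +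
          (9 * n + 3) * (2 * Real.log q + 1 + 8 * Real.log 2) + n) +
          ((k : ℕ) : ℝ) * Real.log q) := by
      rw [Fintype.sum_prod_type]
      simp only [sum_const, card_univ, Fintype.card_coe, hM, nsmul_eq_mul]
    rw [g3]
    refine mul_le_mul_of_nonneg_left ?_ (by positivity)
    refine (core_sum_lin (10 * n) _ (Real.log q) hL).trans ?_
    push_cast
    have h200 : Real.log (12 * (((δ : ℝ) - 20) * n + 2) ^ 2) ≤
        Real.log (200 * ((δ : ℝ) * n + 2) ^ 2) := by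
      have h0 : 0 < ((δ : ℝ) - 20) * n + 2 := by nlinarith
      refine Real.log_le_log (by positivity) ?_
      have h1 : ((δ : ℝ) - 20) * n + 2 ≤ (δ : ℝ) * n + 2 := by nlinarith
      have h2 := pow_le_pow_left₀ h0.le h1 2
      nlinarith
    have hn10 : (0 : ℝ) ≤ 10 * n := by positivity
    nlinarith [mul_le_mul_of_nonneg_left h200 hn10]
  have hRlog : (R : ℝ) * Real.log R = (δ + 20 * s * M + 10 * M) * n *
      Real.log ((δ + 20 * s * M + 10 * M) * n) := by rw [hRr]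
  rw [hRlog] at hfac
  rw [hRr] at hlog
  nlinarith [hlog, hfac, hUsum, hEsum]

theorem core7 {q s δ : ℕ} {I Cs : Finset ℕ} (hq : 1 ≤ q) (hCs : Cs.Nonempty)
    (hC : ∀ c ∈ Cs, c < q) (hI : ∀ x ∈ I, x < q) (hδ : 20 < δ)
    (hm : δ + 20 * (Cs.card * (s + 1)) < I.card)
    (hΦ : (δ : ℝ) + δ ^ 2 * Real.log q / 2 + s * Cs.card * (20 + 200 * Real.log q) +
      Cs.card * (10 + 50 * Real.log q + 90 * (2 * Real.log q + 1 + 8 * Real.log 2) -
        10 * (δ - 20) * Real.log 3) < 0)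
    (ξ : Fin s → ℝ) (b₀ : ℕ → ℚ) (b : ℕ → Fin s → ℚ)
    (hS : ∀ x ∈ I, ∀ c ∈ Cs, SS q ((x : ℝ) + c) =
      (b₀ ((x + c) % q) : ℝ) + ∑ i, (b ((x + c) % q) i : ℝ) * ξ i) : False := by
  classical
  obtain ⟨M, hM⟩ : ∃ M, Cs.card = M := ⟨_, rfl⟩
  have hM1 : 1 ≤ M := by
    rw [← hM]
    exact hCs.card_pos
  -- the denominators
  obtain ⟨D₁, hD₁, hD₁'⟩ := exists_den (range q) b₀
  obtain ⟨D₂, hD₂, hD₂'⟩ := exists_den (range q ×ˢ (univ : Finset (Fin s))) (fun p => b p.1 p.2)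
  obtain ⟨B, hB1, hB⟩ : ∃ B : ℝ, 1 ≤ B ∧ ∀ y < q, ∀ i, |(b y i : ℝ)| ≤ B := by
    refine ⟨1 + ∑ y ∈ range q, ∑ i, |(b y i : ℝ)|, ?_, fun y hy i => ?_⟩
    · have : 0 ≤ ∑ y ∈ range q, ∑ i, |(b y i : ℝ)| :=
        sum_nonneg fun _ _ => sum_nonneg fun _ _ => abs_nonneg _
      linarith
    · have h1 : |(b y i : ℝ)| ≤ ∑ i, |(b y i : ℝ)| :=
        single_le_sum (f := fun i => |(b y i : ℝ)|) (fun _ _ => abs_nonneg _) (mem_univ i)
      have h2 : ∑ i, |(b y i : ℝ)| ≤ ∑ y ∈ range q, ∑ i, |(b y i : ℝ)| :=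
        single_le_sum (f := fun y => ∑ i, |(b y i : ℝ)|)
          (fun _ _ => sum_nonneg fun _ _ => abs_nonneg _) (mem_range.2 hy)
      linarith
  have hDD : 1 ≤ D₁ * D₂ := Nat.one_le_iff_ne_zero.2 (mul_ne_zero (by omega) (by omega))
  have h0 : ∀ y < q, ∃ z : ℤ, ((D₁ * D₂ : ℕ) : ℝ) * (b₀ y : ℝ) = z := by
    intro y hy
    obtain ⟨m, hm⟩ := hD₁' y (mem_range.2 hy)
    refine ⟨D₂ * m, ?_⟩
    have h1 := congrArg (fun x : ℚ => (x : ℝ)) hm
    push_cast at h1 ⊢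
    rw [← h1]
    ring
  have h1 : ∀ y < q, ∀ i, ∃ z : ℤ, ((D₁ * D₂ : ℕ) : ℝ) * (b y i : ℝ) = z := by
    intro y hy i
    obtain ⟨m, hm⟩ := hD₂' (y, i) (mem_product.2 ⟨mem_range.2 hy, mem_univ i⟩)
    refine ⟨D₁ * m, ?_⟩
    have h1 := congrArg (fun x : ℚ => (x : ℝ)) hm
    push_cast at h1 ⊢
    rw [← h1]
    ring
  rw [hM] at hm hΦ
  have hδr : (20 : ℝ) < δ := by exact_mod_cast hδ
  have hMr : (1 : ℝ) ≤ M := by exact_mod_cast hM1
  refine HZ3.lim_contra (E := -((δ : ℝ) + δ ^ 2 * Real.log q / 2 + s * M * (20 + 200 * Real.log q) +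
      M * (10 + 50 * Real.log q + 90 * (2 * Real.log q + 1 + 8 * Real.log 2) -
        10 * (δ - 20) * Real.log 3)))
    (a := (δ + 20 * s * M + 10 * M) * Real.log ((D₁ * D₂ : ℕ) : ℝ) + 20 * s * M * Real.log B +
        30 * M * (2 * Real.log q + 1 + 8 * Real.log 2))
    (R₁ := δ + 20 * s * M + 10 * M) (c := 10 * M) (δ := δ) (by linarith) (by positivity)
    (by linarith) (6 * M * (M * (s + 1) + 1) + I.card * (M * (s + 1)) + 4) (fun n hn => ?_)
  have hn3 : 3 ≤ n := by omega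
  have hdet := det7 (n := n) (d := δ * n) (K := 20 * n) (k := 10 * n) hq (by omega) hC hI (by omega)
    (by omega) (Nat.mul_lt_mul_of_pos_right hδ (by omega)) (by
      rw [hM]
      have h2 : (δ + 20 * (M * (s + 1)) + 1) * n ≤ I.card * n := Nat.mul_le_mul_right n hm
      have h3 : (δ + 20 * (M * (s + 1)) + 1) * n = δ * n + M * (s + 1) * (20 * n) + n := by ring
      omega) ξ b₀ b hS hDD hB1 h0 h1 hB
  have := ineq7 hq (by omega) hM hM1 hδ hDD hB1 hdet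
  exact this

theorem core_V {q s δ : ℕ} {I Cs : Finset ℕ} (hq : 1 ≤ q) (hCs : Cs.Nonempty)
    (hC : ∀ c ∈ Cs, c < q) (hI : ∀ x ∈ I, x < q) (hδ : 20 < δ)
    (hm : δ + 20 * (Cs.card * (s + 1)) < I.card)
    (hΦ : (δ : ℝ) + δ ^ 2 * Real.log q / 2 + s * Cs.card * (20 + 200 * Real.log q) +
      Cs.card * (10 + 50 * Real.log q + 90 * (2 * Real.log q + 1 + 8 * Real.log 2) -
        10 * (δ - 20) * Real.log 3) < 0)
    (V : Submodule ℚ ℝ) (hV : Module.Finite ℚ V) (hs : Module.finrank ℚ V = s)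
    (hmem : ∀ x ∈ I, ∀ c ∈ Cs,
      hur (((x + c : ℕ) : ℝ) / q) ∈ V ⊔ Submodule.span ℚ {(1 : ℝ)}) : False := by
  classical
  have hq0 : (0 : ℝ) < q := by exact_mod_cast hq
  have bas := Module.finBasisOfFinrankEq ℚ V hs
  have hrepr : ∀ v : V, (v : ℝ) = ∑ i, (bas.repr v i : ℝ) * (bas i : ℝ) := by
    intro v
    have h := congrArg (fun w : V => (w : ℝ)) (bas.sum_repr v)
    simp only [Submodule.coe_sum, Submodule.coe_smul, Rat.smul_def] at h
    exact h.symm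
  have hper : ∀ y l : ℕ, SS q ((y + q * l : ℕ) : ℝ) = SS q (y : ℝ) := by
    intro y l
    have := SS_per (q := q) (y : ℝ) l
    push_cast
    exact this
  have hmod : ∀ y : ℕ, SS q (y : ℝ) = SS q ((y % q : ℕ) : ℝ) := by
    intro y
    conv_lhs => rw [← Nat.mod_add_div y q]
    exact hper _ _
  have key : ∀ y : ℕ, ∃ (c₀ : ℚ) (c : Fin s → ℚ), (∃ x ∈ I, ∃ c ∈ Cs, (x + c) % q = y) →
      SS q (y : ℝ) = (c₀ : ℝ) + ∑ i, (c i : ℝ) * (bas i : ℝ) := by
    intro y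
    by_cases h : ∃ x ∈ I, ∃ c ∈ Cs, (x + c) % q = y
    · obtain ⟨x, hx, c, hc, hxc⟩ := h
      have h3 := hmem x hx c hc
      obtain ⟨v, hv, w, hw, hvw⟩ := Submodule.mem_sup.1 h3
      obtain ⟨a, rfl⟩ := Submodule.mem_span_singleton.1 hw
      refine ⟨1 / (q : ℚ) ^ 3 * a, fun i => 1 / (q : ℚ) ^ 3 * bas.repr ⟨v, hv⟩ i, fun _ => ?_⟩
      have h4 := hrepr ⟨v, hv⟩
      rw [← hxc, ← hmod, SS_hur hq, ← hvw]
      rw [Rat.smul_def, mul_one]
      have h5 : v = ∑ i, (bas.repr ⟨v, hv⟩ i : ℝ) * (bas i : ℝ) := h4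
      rw [mul_add, add_comm]
      congr 1
      · push_cast
        ring
      · conv_lhs => rw [h5]
        rw [mul_sum]
        refine sum_congr rfl fun i _ => ?_
        push_cast
        ring
    · exact ⟨0, fun _ => 0, fun h' => absurd h' h⟩
  choose b₀ b hb using key
  refine core7 hq hCs hC hI hδ hm hΦ (fun i => (bas i : ℝ)) b₀ b (fun x hx c hc => ?_)
  rw [← hb ((x + c) % q) ⟨x, hx, c, hc, rfl⟩, ← hmod]
  push_cast
  rfl

end HZ7
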