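import Pool.Agent.LibHZ89.Main
import Pool.Agent.LibHZ89.Z2
import Pool.Agent.LibHZ89.Z1b
import Pool.Agent.LibHZ6Z.D2
import Pool.Agent.LibHZ3.Det
import Pool.Agent.LibHZ3.LIM

/-!
# HZ7: the values `h(x/q)` in short intervals and sumsets: definitions

`T = 3 n + 1` is the length of the windows.
-/

namespace HZ7

open Finset HZ89 Polynomial

/-- the sum of `1 / |u + q t|³` over all integers `t` (`1 / 0 = 0`) -/
noncomputable def SS (q : ℕ) (u : ℝ) : ℝ := ∑' t : ℤ, 1 / |u + q * t| ^ 3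

/-- the window sum, `t = i - 2 n`, `-2 n ≤ t ≤ n` -/
noncomputable def ps (q n : ℕ) (u : ℝ) : ℝ :=
  ∑ i ∈ range (3 * n + 1), 1 / |u - 2 * q * n + q * i| ^ 3

/-- the normalisation of the multiplier -/
noncomputable def bet (q n : ℕ) : ℝ :=
  (q : ℝ) ^ (3 * n + 1) * (Nat.lcmUpto (3 * n + 1) : ℝ) / ((3 * n + 1).factorial : ℝ)

/-- the multiplier -/
noncomputable def WP (q n c : ℕ) : ℝ[X] :=
  (C (bet q n) * ∏ i ∈ range (3 * n + 1), (X + C ((c : ℝ) - 2 * q * n + q * i))) ^ 3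

/-- `ps (y + c + q) = ps (y + c) - rho y` -/
noncomputable def rho (q n c : ℕ) (y : ℝ) : ℝ :=
  1 / (2 * (q : ℝ) * n - (y + c)) ^ 3 - 1 / (y + c + (q : ℝ) * (n + 1)) ^ 3

/-- the common denominator of the shifts -/
noncomputable def GP (q n : ℕ) (Cs : Finset ℕ) (S : ℕ) : ℝ[X] :=
  ∏ c ∈ Cs, ∏ l ∈ range (S + 1), ((C (2 * (q : ℝ) * n - c - q * l) - X) *
    (X + C ((c : ℝ) + q * (n + 1) + q * l))) ^ 3

/-- the index sets of the rows -/
abbrev RA (s : ℕ) (Cs : Finset ℕ) (d K : ℕ) : Type := Fin d ⊕ (Fin s × Cs × Fin K)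

abbrev RB (Cs : Finset ℕ) (k : ℕ) : Type := Cs × Fin k

/-- the rows (i), (iii) -/
noncomputable def rowA (q s : ℕ) (Cs : Finset ℕ) (d K : ℕ) (b : ℕ → Fin s → ℚ) :
    RA s Cs d K → ℕ → ℝ
  | Sum.inl k, j => (j.choose k : ℝ)
  | Sum.inr (i, c, k), j => (b ((j + c) % q) i : ℝ) * (j.choose k : ℝ)

/-- the rows (iv) -/
noncomputable def rowB (q n : ℕ) (Cs : Finset ℕ) (k : ℕ) (b₀ : ℕ → ℚ) (p : RB Cs k) (j : ℕ) : ℝ :=
  ((b₀ ((j + p.1) % q) : ℝ) - ps q n ((j : ℝ) + (p.1 : ℕ))) *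
    ((WP q n p.1).eval (j : ℝ) * (j.choose p.2 : ℝ))

/-- the span of the rows (i), (iii), as functions on `P q n I` -/
noncomputable def rsp (q n s : ℕ) (Cs : Finset ℕ) (d K : ℕ) (b : ℕ → Fin s → ℚ) (I : Finset ℕ) :
    Submodule ℝ (P q n I → ℝ) :=
  Submodule.span ℝ (Set.range fun (r : RA s Cs d K) (j : P q n I) => rowA q s Cs d K b r j)

end HZ7
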