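import Pool.Agent.LibHZ7.Defs

/-!
# Row E1: the window sums on a class (SHORT)

Plan: `ps_add`: with `f i = 1 / |u - 2 q n + q i| ^ 3` the left side is `∑_{i < T} f (i + 1)`, so it is
`ps + f T - f 0` (`Finset.sum_range_succ`, `Finset.sum_range_succ'`).
`ps_shift`: `u = j + q k + c` with `0 ≤ u`, `u + q ≤ ... < 2 q n` (use `c < q`, `j + q l < q n`), so the absolute
values are `u + q (n + 1)` and `2 q n - u`; induction on `l`.
-/

namespace HZ7

open Finset HZ89 Polynomial

theorem ps_add (q n : ℕ) (u : ℝ) :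
    ps q n (u + q) = ps q n u + 1 / |u + q * (n + 1)| ^ 3 - 1 / |u - 2 * q * n| ^ 3 := by
  unfold ps
  obtain ⟨f, hf⟩ : ∃ f : ℕ → ℝ, ∀ i, f i = 1 / |u - 2 * q * n + q * i| ^ 3 := ⟨_, fun i => rfl⟩
  have h1 : ∀ i : ℕ, 1 / |u + q - 2 * q * n + q * i| ^ 3 = f (i + 1) := fun i => by
    rw [hf]
    congr 3
    push_cast
    ring
  have h2 : f (3 * n + 1) = 1 / |u + q * (n + 1)| ^ 3 := by
    rw [hf]
    congr 3
    push_cast
    ring
  have h3 : f 0 = 1 / |u - 2 * q * n| ^ 3 := by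
    rw [hf]
    congr 3
    push_cast
    ring
  have h4 : ∑ i ∈ range (3 * n + 1), 1 / |u + q - 2 * q * n + q * i| ^ 3 =
      ∑ i ∈ range (3 * n + 1), f (i + 1) := sum_congr rfl fun i _ => h1 i
  have h5 : ∑ i ∈ range (3 * n + 1), 1 / |u - 2 * q * n + q * i| ^ 3 =
      ∑ i ∈ range (3 * n + 1), f i := sum_congr rfl fun i _ => (hf i).symm
  rw [h4, h5, ← h2, ← h3]
  have h6 := sum_range_succ f (3 * n + 1)
  have h7 := sum_range_succ' f (3 * n + 1)
  linarith

theorem ps_shift {q n c j : ℕ} (hc : c < q) (l : ℕ) (hj : j + q * l < q * n) :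
    ps q n ((j : ℝ) + q * l + c) = ps q n ((j : ℝ) + c) -
      ∑ k ∈ range l, rho q n c ((j : ℝ) + k * q) := by
  induction l with
  | zero => simp
  | succ l ih =>
    have hj' : j + q * l + q < q * n := by
      have : q * (l + 1) = q * l + q := by ring
      omega
    have ih' := ih (by omega)
    have e1 : ((j : ℝ) + q * ((l + 1 : ℕ) : ℝ) + c) = ((j : ℝ) + q * l + c) + q := by
      push_cast
      ring
    have hjR : (j : ℝ) + q * l + q < q * n := by exact_mod_cast hj'
    have hcR : (c : ℝ) < q := by exact_mod_cast hc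
    have hj0 : (0 : ℝ) ≤ j := Nat.cast_nonneg j
    have hc0 : (0 : ℝ) ≤ c := Nat.cast_nonneg c
    have hql : (0 : ℝ) ≤ (q : ℝ) * l := by positivity
    have hqn : (0 : ℝ) ≤ (q : ℝ) * (n + 1) := by positivity
    have hqn' : (0 : ℝ) ≤ (q : ℝ) * n := by positivity
    have e2 : |(j : ℝ) + q * l + c + q * (n + 1)| = (j : ℝ) + l * q + c + q * (n + 1) := by
      rw [abs_of_nonneg (by linarith)]
      ring
    have e3 : |(j : ℝ) + q * l + c - 2 * q * n| = 2 * q * n - ((j : ℝ) + l * q + c) := by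
      rw [abs_of_nonpos (by linarith)]
      ring
    rw [e1, ps_add, ih', sum_range_succ, e2, e3]
    unfold rho
    ring

end HZ7
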