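import Pool.Agent.LibHZ7.Defs
import Pool.Agent.LibHZ6Z.P2

/-!
# Row E3: the common denominators (MEDIUM, compare LibHZ6Z/P1.lean, LibHZ6Z/P2.lean)

Plan: `GP_natDegree`: `natDegree_prod_le`, each factor has degree `≤ 6`.  `GP_ne`: `prod_ne_zero_iff`, the factors
are non-zero (leading coefficients).  `GP_pos`: for `0 ≤ y < q (n - S)`, `c < q`, `l ≤ S`:
`2 q n - c - q l - y > 0` (`1 ≤ n`), `y + c + q (n + 1) + q l > 0`.
`rho_poly`: `rho q n c (y + l q) = 1 / (2 q n - c - q l - y) ^ 3 - 1 / (y + c + q (n+1) + q l) ^ 3`, and both cubes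
divide `GP` (`Finset.dvd_prod_of_mem` twice); `HZ6Z.p2_div` (LibHZ6Z/P2.lean: `v ^ 3 ∣ G` gives a polynomial `w`,
`natDegree w ≤ natDegree G`, `w(y) = G(y) * (1 / v(y) ^ 3)` where `G(y) ≠ 0`).
-/

namespace HZ7

open Finset HZ89 Polynomial

variable {q n S : ℕ} {Cs : Finset ℕ}

theorem GP_natDegree : (GP q n Cs S).natDegree ≤ 6 * Cs.card * (S + 1) := by
  unfold GP
  refine (natDegree_prod_le _ _).trans ?_
  have h0 : ∀ c ∈ Cs, (∏ l ∈ range (S + 1), ((C (2 * (q : ℝ) * n - c - q * l) - X) *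
      (X + C ((c : ℝ) + q * (n + 1) + q * l))) ^ 3 : ℝ[X]).natDegree ≤ 6 * (S + 1) := by
    intro c _
    refine (natDegree_prod_le _ _).trans ?_
    have h : ∀ l ∈ range (S + 1), (((C (2 * (q : ℝ) * n - c - q * l) - X) *
        (X + C ((c : ℝ) + q * (n + 1) + q * l))) ^ 3 : ℝ[X]).natDegree ≤ 6 := by
      intro l _
      refine natDegree_pow_le.trans ?_
      have h1 : ((C (2 * (q : ℝ) * n - c - q * l) - X) *
          (X + C ((c : ℝ) + q * (n + 1) + q * l)) : ℝ[X]).natDegree ≤ 2 := by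
        compute_degree
      omega
    refine (Finset.sum_le_sum h).trans ?_
    rw [Finset.sum_const, card_range, smul_eq_mul]
    exact le_of_eq (by ring)
  refine (Finset.sum_le_sum h0).trans ?_
  rw [Finset.sum_const, smul_eq_mul]
  exact le_of_eq (by ring)

theorem GP_ne : GP q n Cs S ≠ 0 := by
  unfold GP
  rw [Finset.prod_ne_zero_iff]
  intro c _
  rw [Finset.prod_ne_zero_iff]
  intro l _
  refine pow_ne_zero _ (mul_ne_zero ?_ (X_add_C_ne_zero _))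
  rw [← neg_sub]
  exact neg_ne_zero.2 (X_sub_C_ne_zero _)

theorem GP_pos (hq : 1 ≤ q) (hn : 1 ≤ n) (hC : ∀ c ∈ Cs, c < q) {y : ℝ} (h0 : 0 ≤ y)
    (h1 : y + q * S < q * n) : (GP q n Cs S).eval y ≠ 0 := by
  unfold GP
  rw [eval_prod, Finset.prod_ne_zero_iff]
  intro c hc
  rw [eval_prod, Finset.prod_ne_zero_iff]
  intro l hl
  rw [mem_range] at hl
  have hq' : (0 : ℝ) < q := by exact_mod_cast hq
  have hl' : (l : ℝ) ≤ S := by exact_mod_cast (by omega : l ≤ S)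
  have hc' : (c : ℝ) < q := by exact_mod_cast hC c hc
  have hc0 : (0 : ℝ) ≤ c := Nat.cast_nonneg c
  have hn' : (1 : ℝ) ≤ n := by exact_mod_cast hn
  have h2 : (q : ℝ) * l ≤ q * S := mul_le_mul_of_nonneg_left hl' hq'.le
  have h3 : (q : ℝ) ≤ q * n := by nlinarith
  have h4 : (0 : ℝ) ≤ q * l := by positivity
  simp only [eval_pow, eval_mul, eval_add, eval_sub, eval_C, eval_X]
  refine pow_ne_zero _ (mul_ne_zero ?_ ?_)
  · apply ne_of_gt
    nlinarith
  · apply ne_of_gt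
    nlinarith

theorem rho_poly {c l : ℕ} (hc : c ∈ Cs) (hl : l ≤ S) :
    ∃ p : ℝ[X], p.natDegree ≤ 6 * Cs.card * (S + 1) ∧
      ∀ y : ℝ, (GP q n Cs S).eval y ≠ 0 →
        p.eval y = (GP q n Cs S).eval y * rho q n c (y + l * q) := by
  have hd : ((C (2 * (q : ℝ) * n - c - q * l) - X) *
      (X + C ((c : ℝ) + q * (n + 1) + q * l))) ^ 3 ∣ GP q n Cs S := by
    unfold GP
    exact (Finset.dvd_prod_of_mem (fun l : ℕ => ((C (2 * (q : ℝ) * n - c - q * l) - X) *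
      (X + C ((c : ℝ) + q * (n + 1) + q * l))) ^ 3) (mem_range.2 (by omega))).trans
      (Finset.dvd_prod_of_mem (fun c : ℕ => ∏ l ∈ range (S + 1),
        ((C (2 * (q : ℝ) * n - c - q * l) - X) *
          (X + C ((c : ℝ) + q * (n + 1) + q * l))) ^ 3) hc)
  have hG : GP q n Cs S ≠ 0 := GP_ne
  obtain ⟨w1, d1, e1⟩ := HZ6Z.p2_div hG ((pow_dvd_pow_of_dvd (Dvd.intro _ rfl) 3).trans hd)
  obtain ⟨w2, d2, e2⟩ := HZ6Z.p2_div hG ((pow_dvd_pow_of_dvd (Dvd.intro_left _ rfl) 3).trans hd)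
  refine ⟨w1 - w2, ((natDegree_sub_le _ _).trans (max_le d1 d2)).trans GP_natDegree,
    fun y hy => ?_⟩
  rw [eval_sub, e1 y hy, e2 y hy]
  simp only [eval_add, eval_sub, eval_C, eval_X]
  unfold rho
  have c1 : 2 * (q : ℝ) * n - (y + l * q + c) = 2 * (q : ℝ) * n - c - q * l - y := by ring
  have c2 : y + l * q + c + (q : ℝ) * (n + 1) = y + ((c : ℝ) + q * (n + 1) + q * l) := by ring
  rw [c1, c2]
  ring

end HZ7
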