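import Pool.Agent.LibHZ7.E1
import Pool.Agent.LibHZ7.E2
import Pool.Agent.LibHZ7.E3

/-!
# The zero estimate (helper5)
-/

namespace HZ7

open Finset HZ89 Polynomial

theorem card_P7 {q n : ℕ} {I : Finset ℕ} (hI : ∀ x ∈ I, x < q) :
    (P q n I).card = I.card * n := by
  have h : (I ×ˢ range n).card = (P q n I).card := by
    refine Finset.card_bij (fun a _ => q * a.2 + a.1) ?_ ?_ ?_
    · intro a ha
      rw [Finset.mem_product, Finset.mem_range] at ha
      have h2 := hI a.1 ha.1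
      unfold P
      rw [Finset.mem_filter, Finset.mem_range]
      refine ⟨?_, ?_⟩
      · calc q * a.2 + a.1 < q * a.2 + q := by omega
          _ = q * (a.2 + 1) := by ring
          _ ≤ q * n := Nat.mul_le_mul_left q ha.2
      · rw [Nat.mul_add_mod, Nat.mod_eq_of_lt h2]
        exact ha.1
    · intro a ha b hb hab
      rw [Finset.mem_product] at ha hb
      have h3 := hI a.1 ha.1
      have h4 := hI b.1 hb.1
      have hab' : q * a.2 + a.1 = q * b.2 + b.1 := hab
      have e1 : a.1 = b.1 := by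
        have := congrArg (· % q) hab'
        simp only [Nat.mul_add_mod, Nat.mod_eq_of_lt h3, Nat.mod_eq_of_lt h4] at this
        exact this
      have e2 : a.2 = b.2 := by
        rw [e1] at hab'
        exact Nat.eq_of_mul_eq_mul_left (by omega) (Nat.add_right_cancel hab')
      exact Prod.ext e1 e2
    · intro j hj
      unfold P at hj
      rw [Finset.mem_filter, Finset.mem_range] at hj
      refine ⟨(j % q, j / q), ?_, Nat.div_add_mod j q⟩
      rw [Finset.mem_product, Finset.mem_range]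
      exact ⟨hj.2, Nat.div_lt_of_lt_mul hj.1⟩
  rw [← h, Finset.card_product, Finset.card_range]

theorem zeroW7 {q n d K S : ℕ} {I Cs : Finset ℕ} (hq : 1 ≤ q) (hn : 1 ≤ n)
    (hC : ∀ c ∈ Cs, c < q) (hI : ∀ x ∈ I, x < q) (W : Submodule ℝ ℝ[X]) [Module.Finite ℝ W]
    (hS : Module.finrank ℝ W = S) (hW : ∀ p ∈ W, p.natDegree ≤ K)
    (u : ℕ → ℝ[X]) (hu : ∀ c ∈ Cs, u c ∈ W) (w : ℕ → ℝ[X]) (hw : ∀ x ∈ I, w x ∈ W)
    (F : ℝ[X]) (hF : F.natDegree ≤ d)
    (hrel : ∀ j ∈ P q n I, F.eval (j : ℝ) -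
      ∑ c ∈ Cs, ps q n ((j : ℝ) + c) * (u c).eval (j : ℝ) + (w (j % q)).eval (j : ℝ) = 0)
    (hcount : 6 * Cs.card * (S + 1) + max d K + S * K < I.card * (n - S)) :
    ∀ c ∈ Cs, u c = 0 := by
  classical
  have hq0 : (0 : ℝ) < q := by exact_mod_cast hq
  set bas := Module.finBasisOfFinrankEq ℝ W hS with hbas
  set f : Fin S → ℝ[X] := fun i => ((bas i : W) : ℝ[X]) with hf
  have hexp : ∀ p : W, (p : ℝ[X]) = ∑ i, C (bas.repr p i) * f i := by
    intro p
    have h := congrArg (fun x : W => (x : ℝ[X])) (bas.sum_repr p)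
    simp only [Submodule.coe_sum, Submodule.coe_smul] at h
    rw [← h]
    refine sum_congr rfl fun i _ => ?_
    rw [smul_eq_C_mul]
  have hlin : LinearIndependent ℝ f := by
    have h1 := bas.linearIndependent.map' W.subtype W.ker_subtype
    exact h1
  have hfe : ∀ i, (f i).natDegree ≤ K := fun i => hW _ (bas i).2
  have hG := GP_ne (q := q) (n := n) (Cs := Cs) (S := S)
  have hGd := GP_natDegree (q := q) (n := n) (Cs := Cs) (S := S)
  choose! rp hrp1 hrp2 using fun (c : ℕ) (hc : c ∈ Cs) (l : ℕ) (hl : l ≤ S) =>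
    rho_poly (q := q) (n := n) (Cs := Cs) (S := S) hc hl
  set A : ℕ → Fin S → ℝ := fun c i => if h : c ∈ Cs then bas.repr ⟨u c, hu c h⟩ i else 0
    with hA
  have hAu : ∀ c ∈ Cs, u c = ∑ i, C (A c i) * f i := by
    intro c hc
    have := hexp ⟨u c, hu c hc⟩
    change u c = _ at this
    rw [this]
    refine sum_congr rfl fun i _ => ?_
    simp only [hA, dif_pos hc]
  have hAe : ∀ c ∈ Cs, ∀ y : ℝ, (u c).eval y = ∑ i, A c i * (f i).eval y := by
    intro c hc y
    conv_lhs => rw [hAu c hc]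
    rw [eval_finsetSum]
    refine sum_congr rfl fun i _ => ?_
    rw [eval_mul, eval_C]
  set J : Finset ℝ := (P q (n - S) I).image (fun j : ℕ => (j : ℝ)) with hJdef
  have hJcard : J.card = I.card * (n - S) := by
    rw [hJdef, card_image_of_injective _ Nat.cast_injective, card_P7 hI]
  have hSn : ∀ j ∈ P q (n - S) I, j + q * S < q * n := by
    intro j hj
    have h1 : j < q * (n - S) := mem_range.1 (mem_filter.1 hj).1
    have h2 : S ≤ n := by
      by_contra hcon
      have : n - S = 0 := by omega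
      rw [this, mul_zero] at h1
      omega
    calc j + q * S < q * (n - S) + q * S := by omega
      _ = q * n := by rw [← mul_add, Nat.sub_add_cancel h2]
  have key := HZ6Z.zc (ι := ℕ) (h := (q : ℝ)) hq0 f hlin (e := K)
    (D0 := 6 * Cs.card * (S + 1) + max d K) hfe hG Cs A (fun c => rho q n c)
    (fun y => F.eval y) (fun l => GP q n Cs S * taylor ((l : ℝ) * q) F) rp
    (fun l hl y hy => by rw [eval_mul, taylor_eval])
    (fun c hc l hl y hy => hrp2 c hc l hl.le y hy)
    (fun l hl => by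
      refine natDegree_mul_le.trans ?_
      rw [natDegree_taylor]
      have h2 : d ≤ max d K := le_max_left _ _
      omega)
    (fun c hc l hl => by
      have h1 := hrp1 c hc l hl.le
      have h2 : K ≤ max d K := le_max_right _ _
      omega)
    J
    (fun y hy => by
      obtain ⟨j, hj, rfl⟩ := mem_image.1 hy
      refine GP_pos hq hn hC (Nat.cast_nonneg j) ?_
      have := hSn j hj
      exact_mod_cast this)
    (fun y hy => by
      obtain ⟨j, hj, rfl⟩ := mem_image.1 hy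
      have hjI : j % q ∈ I := (mem_filter.1 hj).2
      set p : W := ⟨w (j % q), hw _ hjI⟩ -
        ∑ c ∈ Cs.attach, ps q n ((j : ℝ) + (c : ℕ)) • (⟨u c, hu c c.2⟩ : W) with hp
      refine ⟨fun i => bas.repr p i, fun l hl => ?_⟩
      have hlt : j + q * l < q * n := by
        have := hSn j hj
        have h2 : q * l ≤ q * S := Nat.mul_le_mul_left _ hl
        omega
      have hmem : j + q * l ∈ P q n I := by
        unfold P
        rw [mem_filter, mem_range]
        exact ⟨hlt, by rw [Nat.add_mul_mod_self_left]; exact hjI⟩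
      have h1 := hrel _ hmem
      have hcast : ((j + q * l : ℕ) : ℝ) = (j : ℝ) + l * q := by push_cast; ring
      rw [hcast, Nat.add_mul_mod_self_left] at h1
      have h2 : ∑ i, bas.repr p i * (f i).eval ((j : ℝ) + l * q) =
          (w (j % q)).eval ((j : ℝ) + l * q) -
            ∑ c ∈ Cs, ps q n ((j : ℝ) + c) * (u c).eval ((j : ℝ) + l * q) := by
        have h3 := congrArg (fun x => Polynomial.eval ((j : ℝ) + l * q) x) (hexp p)
        simp only [eval_finsetSum, eval_mul, eval_C] at h3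
        rw [← h3, hp]
        simp only [Submodule.coe_sub, Submodule.coe_sum, Submodule.coe_smul, eval_sub,
          eval_finsetSum, eval_smul, smul_eq_mul]
        congr 1
        exact sum_attach Cs fun c => ps q n ((j : ℝ) + c) *
          (u c).eval ((j : ℝ) + l * q)
      rw [h2]
      have h4 : ∑ c ∈ Cs, (∑ k ∈ range l, rho q n c ((j : ℝ) + k * q)) *
          (∑ i, A c i * (f i).eval ((j : ℝ) + l * q)) =
          ∑ c ∈ Cs, ps q n ((j : ℝ) + c) * (u c).eval ((j : ℝ) + l * q) -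
          ∑ c ∈ Cs, ps q n ((j : ℝ) + l * q + c) * (u c).eval ((j : ℝ) + l * q) := by
        rw [← sum_sub_distrib]
        refine sum_congr rfl fun c hc => ?_
        have h5 := ps_shift (n := n) (hC c hc) l hlt
        have h6 : (j : ℝ) + q * l + c = (j : ℝ) + l * q + c := by ring
        rw [h6] at h5
        rw [← hAe c hc, h5]
        ring
      rw [h4]
      linarith)
    (by
      rw [hJcard]
      omega)
  intro c hc
  have hA0 : ∀ i, A c i = 0 := by
    intro i
    obtain ⟨a, D, hD, h⟩ := key i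
    refine no_rational7 (n := n) (a := a) hq hC (fun c => A c i) hD hG (fun y h1 h2 h3 h4 => ?_) c hc
    exact h y h1 h2 h3 h4
  rw [hAu c hc]
  exact sum_eq_zero fun i _ => by rw [hA0 i, C_0, zero_mul]

theorem zero7 {q n s d K : ℕ} {I Cs : Finset ℕ} (hq : 1 ≤ q) (hn : 1 ≤ n)
    (hC : ∀ c ∈ Cs, c < q) (hI : ∀ x ∈ I, x < q) (hKd : K ≤ d)
    (hdeg : 6 * Cs.card * (Cs.card * (s + 1) + 1) + d + (Cs.card * (s + 1)) * K +
      I.card * (Cs.card * (s + 1)) < I.card * n)
    (b₀ : ℕ → ℚ) (b : ℕ → Fin s → ℚ) (F : ℝ[X]) (hF : F.natDegree ≤ d)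
    (u : ℕ → ℝ[X]) (u' : ℕ → Fin s → ℝ[X]) (hu : ∀ c ∈ Cs, (u c).natDegree ≤ K)
    (hu' : ∀ c ∈ Cs, ∀ i, (u' c i).natDegree ≤ K)
    (h : ∀ j ∈ P q n I, F.eval (j : ℝ) +
      ∑ c ∈ Cs, ((b₀ ((j + c) % q) : ℝ) - ps q n ((j : ℝ) + c)) * (u c).eval (j : ℝ) +
      ∑ c ∈ Cs, ∑ i, (b ((j + c) % q) i : ℝ) * (u' c i).eval (j : ℝ) = 0) :
    ∀ c ∈ Cs, u c = 0 := by
  classical
  set B : Finset ℝ[X] := Cs.image u ∪ (Cs ×ˢ (univ : Finset (Fin s))).image (fun p => u' p.1 p.2)
    with hB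
  set W : Submodule ℝ ℝ[X] := Submodule.span ℝ (B : Set ℝ[X]) with hW
  have : Module.Finite ℝ W := Module.Finite.span_finset ℝ B
  have hfin : Module.finrank ℝ W ≤ Cs.card * (s + 1) := by
    refine (finrank_span_finset_le_card B).trans ?_
    refine (card_union_le _ _).trans ?_
    have h1 : (Cs.image u).card ≤ Cs.card := card_image_le
    have h2 : ((Cs ×ˢ (univ : Finset (Fin s))).image (fun p => u' p.1 p.2)).card ≤ Cs.card * s := by
      refine card_image_le.trans ?_
      rw [card_product, card_univ, Fintype.card_fin]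
    rw [mul_add, mul_one]
    omega
  have huW : ∀ c ∈ Cs, u c ∈ W := fun c hc =>
    Submodule.subset_span (mem_coe.2 (mem_union_left _ (mem_image_of_mem u hc)))
  have hu'W : ∀ c ∈ Cs, ∀ i, u' c i ∈ W := fun c hc i =>
    Submodule.subset_span (mem_coe.2 (mem_union_right _ (mem_image.2
      ⟨(c, i), mem_product.2 ⟨hc, mem_univ _⟩, rfl⟩)))
  have hdegW : ∀ p ∈ W, p.natDegree ≤ K := by
    have h1 : W ≤ degreeLE ℝ (K : WithBot ℕ) := by
      rw [hW, Submodule.span_le]
      intro p hp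
      rw [mem_coe, hB, mem_union, mem_image, mem_image] at hp
      have h2 : ∀ p : ℝ[X], p.natDegree ≤ K → p ∈ degreeLE ℝ (K : WithBot ℕ) := by
        intro p hp
        rw [mem_degreeLE]
        exact natDegree_le_iff_degree_le.1 hp
      rcases hp with ⟨c, hc, rfl⟩ | ⟨⟨c, i⟩, hci, rfl⟩
      · exact h2 _ (hu c hc)
      · exact h2 _ (hu' c (mem_product.1 hci).1 i)
    intro p hp
    exact natDegree_le_iff_degree_le.2 (mem_degreeLE.1 (h1 hp))
  set w : ℕ → ℝ[X] := fun x => ∑ c ∈ Cs, (b₀ ((x + c) % q) : ℝ) • u c +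
    ∑ c ∈ Cs, ∑ i, (b ((x + c) % q) i : ℝ) • u' c i with hw
  have hwW : ∀ x ∈ I, w x ∈ W := by
    intro x _
    refine W.add_mem (W.sum_mem fun c hc => W.smul_mem _ (huW c hc)) ?_
    exact W.sum_mem fun c hc => W.sum_mem fun i _ => W.smul_mem _ (hu'W c hc i)
  refine zeroW7 (q := q) (n := n) (d := d) (K := K) (I := I) (Cs := Cs)
    (S := Module.finrank ℝ W) hq hn hC hI W rfl hdegW u huW w hwW F hF ?_ ?_
  · intro j hj
    have h1 := h j hj
    have hmod : ∀ c : ℕ, (j % q + c) % q = (j + c) % q := fun c => by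
      rw [Nat.mod_add_mod]
    have h2 : (w (j % q)).eval (j : ℝ) =
        ∑ c ∈ Cs, (b₀ ((j + c) % q) : ℝ) * (u c).eval (j : ℝ) +
        ∑ c ∈ Cs, ∑ i, (b ((j + c) % q) i : ℝ) * (u' c i).eval (j : ℝ) := by
      simp only [hw, eval_add, eval_finsetSum, eval_smul, smul_eq_mul, hmod]
    rw [h2]
    have h3 : ∑ c ∈ Cs, ((b₀ ((j + c) % q) : ℝ) - ps q n ((j : ℝ) + c)) * (u c).eval (j : ℝ) =
        ∑ c ∈ Cs, (b₀ ((j + c) % q) : ℝ) * (u c).eval (j : ℝ) -
        ∑ c ∈ Cs, ps q n ((j : ℝ) + c) * (u c).eval (j : ℝ) := by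
      rw [← sum_sub_distrib]
      exact sum_congr rfl fun c _ => by ring
    rw [h3] at h1
    linarith
  · obtain ⟨S, hS⟩ : ∃ S, Module.finrank ℝ W = S := ⟨_, rfl⟩
    obtain ⟨S', hS'⟩ : ∃ S', Cs.card * (s + 1) = S' := ⟨_, rfl⟩
    rw [hS, hS'] at hfin
    rw [hS'] at hdeg
    rw [hS, max_eq_left hKd]
    have h1 : 6 * Cs.card * (S + 1) ≤ 6 * Cs.card * (S' + 1) :=
      Nat.mul_le_mul_left _ (by omega)
    have h2 : S * K ≤ S' * K := Nat.mul_le_mul_right _ hfin
    have h3 : I.card * S ≤ I.card * S' := Nat.mul_le_mul_left _ hfin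
    rw [Nat.mul_sub]
    omega

end HZ7
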